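import Pool.Agent.E8helper6.BH.Span
import Pool.Agent.E8helper33.BE.Fin

set_option autoImplicit false

/-!
# Free resolutions of modules with a symmetry under a product of general linear groups
-/

namespace Pool.Agent.E8helper6.BH

open Pool.Agent.W650 Pool.Agent.E8helper33.BE Pool.Agent.Y577.BT Finset

universe v w

noncomputable section

section

open Classical

variable {m n N : ℕ} {β : Type} {p : Fin m → β} {q : Fin n → β}
variable {row : Fin N → Fin m} {col : Fin N → Fin n}
variable {M : Type v} [NormedAddCommGroup M] [InnerProductSpace ℂ M]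
variable {X Y : ℕ → M →ₗ[ℂ] M} {r : glBlocks p q →ₗ[ℂ] M →ₗ[ℂ] M}

/-- the lower bound for the harmonic classes -/
theorem choose_le_Hm (F : Fills p q row col) [FiniteDimensional ℂ M] [Nontrivial M]
    (h : Act (sys F) X r)
    (hXY : ∀ (j : Fin N) (a b : M), inner ℂ (X j a) b = inner ℂ a (Y j b)) (k : ℕ) :
    N.choose k ≤ Module.finrank ℂ (Hm N X Y (k : ℤ)) := by
  let ι : Type := {J : Finset (Fin N) // IsYg row col J ∧ J.card = k}
  choose μ hμ hle using fun J : ι => exists_WW h (wt_yg F J.2.1)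
  refine (choose_le_sum F k).trans ((sum_le_sum fun J _ => hle J).trans ?_)
  refine sum_le (fun J : ι => WW (sys F) r (hh p q (wr row col J.1) (wc q)) (lst J.1) (μ J))
    (fun J J' hne x hx y hy => ?_) _ fun J => ?_
  · have h1 : ∃ j ∈ J.1, j ∉ J'.1 := by
      by_contra hc
      push Not at hc
      exact hne (Subtype.ext (Finset.eq_of_subset_of_card_le hc (by rw [J.2.2, J'.2.2])))
    obtain ⟨j, hj, hj'⟩ := h1
    exact WW_orth h (wt_yg F J.2.1) (hμ J) (wt_yg F J'.2.1) (hμ J') j.2 ((mem_lst _ j).2 hj)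
      (fun h' => hj' ((mem_lst _ j).1 h')) hx hy
  · have h1 := WW_le_Hm h hXY (wt_yg F J.2.1) (hμ J)
    rwa [length_lst, J.2.2] at h1

/-- **The main theorem.** -/
theorem gl_main (F : Fills p q row col) (S : Type w) [CommRing S] [Algebra ℂ S]
    (f : Fin N → S) (hreg : RegularSeq f) [Module.Finite ℂ (S ⧸ Ideal.span (Set.range f))]
    (M : Type v) [NormedAddCommGroup M] [InnerProductSpace ℂ M] [FiniteDimensional ℂ M]
    [Nontrivial M] [Module S M] [IsScalarTower ℂ S M]
    (ρ : glBlocks p q →ₗ[ℂ] M →ₗ[ℂ] M)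
    (hlie : ∀ A B C : glBlocks p q, C.1.1 = A.1.1 * B.1.1 - B.1.1 * A.1.1 →
      C.1.2 = A.1.2 * B.1.2 - B.1.2 * A.1.2 → ∀ x, ρ C x = ρ A (ρ B x) - ρ B (ρ A x))
    (heqv : ∀ (A : glBlocks p q) (y : Fin N) (x : M), ρ A (f y • x) = f y • ρ A x +
      ∑ z : Fin N, ((if col z = col y then A.1.1 (row z) (row y) else 0) +
        (if row z = row y then A.1.2 (col z) (col y) else 0)) • f z • x)
    (hadj : ∀ A B : glBlocks p q, B.1.1 = A.1.1.conjTranspose → B.1.2 = A.1.2.conjTranspose →
      ∀ x y : M, inner ℂ (ρ A x) y = inner ℂ x (ρ B y))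
    (R : FreeRes S M) (i : ℕ) :
    N.choose i ≤ Module.finrank ℂ (S ⧸ Ideal.span (Set.range f)) * R.rank i := by
  let Y : ℕ → M →ₗ[ℂ] M := fun j => LinearMap.adjoint (opv ℂ (ext0 f) M j)
  have hXY : ∀ (j : Fin N) (a b : M), inner ℂ (opv ℂ (ext0 f) M j a) b = inner ℂ a (Y j b) :=
    fun j a b => (LinearMap.adjoint_inner_right _ a b).symm
  have hX : ∀ (j : Fin N) (x : M), opv ℂ (ext0 f) M j x = f j • x := fun j x => by
    rw [opv_apply, ext0_apply]
  have hact : Act (sys F) (opv ℂ (ext0 f) M) ρ :=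
    { lie := fun A B x => by
        rw [hlie A B ((sys F).br A B) rfl rfl x]
        abel
      eqv := fun A j x => by
        rw [hX, hX, heqv]
        simp only [hX]
        rfl
      adj := fun A a b => hadj A ((sys F).st A) rfl rfl a b }
  exact of_Hm S N f hreg M Y hXY R i _ (choose_le_Hm F hact hXY i)

end

end

end Pool.Agent.E8helper6.BH
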