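import Pool.Agent.E8helper33.BE.Main

set_option autoImplicit false

/-!
# Harmonic classes from the highest weight vectors of several chambers: general part
-/

namespace Pool.Agent.E8helper6.BH

open Pool.Agent.W650 Pool.Agent.E8helper33.BE Finset

universe v

noncomputable section

/-- a Lie algebra with triangular parts, represented by matrices of size `N` -/
structure Sys (L : Type) [AddCommGroup L] [Module ℂ L] (N : ℕ) where
  φ : L →ₗ[ℂ] Matrix (Fin N) (Fin N) ℂ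
  br : L → L → L
  st : L → L
  low : Submodule ℂ L
  dia : Submodule ℂ L
  upp : Submodule ℂ L
  st_st : ∀ A, st (st A) = A
  st_low : ∀ A ∈ low, st A ∈ upp
  st_upp : ∀ A ∈ upp, st A ∈ low
  parts : ∀ A, ∃ B ∈ low, ∃ C ∈ dia, ∃ D ∈ upp, A = B + C + D
  φ_br : ∀ A B, φ (br A B) = φ A * φ B - φ B * φ A
  φ_st : ∀ A, φ (st A) = (φ A).conjTranspose
  φ_dia : ∀ A ∈ dia, IsDia (φ A)
  dia_comm : ∀ A ∈ dia, ∀ B ∈ dia, br A B = 0

variable {L : Type} [AddCommGroup L] [Module ℂ L] {N : ℕ}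

/-- the smallest space which contains `S0` and is preserved by the lower elements -/
def Gn (S : Sys L N) {V : Type v} [AddCommGroup V] [Module ℂ V] (T : L → V →ₗ[ℂ] V)
    (S0 : Submodule ℂ V) : Submodule ℂ V :=
  sInf {W : Submodule ℂ V | S0 ≤ W ∧ ∀ B ∈ S.low, ∀ x ∈ W, T B x ∈ W}

section closure

variable (S : Sys L N) {V : Type v} [AddCommGroup V] [Module ℂ V] (T : L → V →ₗ[ℂ] V)
  {S0 : Submodule ℂ V}

theorem S0_le : S0 ≤ Gn S T S0 := le_sInf fun _ hW => hW.1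

theorem Gn_low {B : L} (hB : B ∈ S.low) {x : V} (hx : x ∈ Gn S T S0) : T B x ∈ Gn S T S0 := by
  unfold Gn at *
  rw [Submodule.mem_sInf] at *
  exact fun W hW => hW.2 B hB x (hx W hW)

theorem Gn_le {W : Submodule ℂ V} (h0 : S0 ≤ W) (h : ∀ B ∈ S.low, ∀ x ∈ W, T B x ∈ W) :
    Gn S T S0 ≤ W := sInf_le ⟨h0, h⟩

theorem Gn_stable (hadd : ∀ A B x, T (A + B) x = T A x + T B x)
    (hcomm : ∀ A B x, T A (T B x) = T (S.br A B) x + T B (T A x))
    (hd : ∀ A ∈ S.dia, ∀ x ∈ S0, T A x ∈ S0)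
    (hu : ∀ A ∈ S.upp, ∀ x ∈ S0, T A x = 0) (A : L) (x : V) (hx : x ∈ Gn S T S0) :
    T A x ∈ Gn S T S0 := by
  let U' : Submodule ℂ V :=
    { carrier := {x | x ∈ Gn S T S0 ∧ ∀ A, T A x ∈ Gn S T S0}
      add_mem' := fun {a b} ha hb => ⟨Submodule.add_mem _ ha.1 hb.1, fun A => by
        rw [map_add]; exact Submodule.add_mem _ (ha.2 A) (hb.2 A)⟩
      zero_mem' := ⟨Submodule.zero_mem _, fun A => by rw [map_zero]; exact Submodule.zero_mem _⟩
      smul_mem' := fun c x hx => ⟨Submodule.smul_mem _ c hx.1, fun A => by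
        rw [map_smul]; exact Submodule.smul_mem _ c (hx.2 A)⟩ }
  have hle : Gn S T S0 ≤ U' := by
    refine Gn_le S T (fun x hx => ⟨S0_le S T hx, fun A => ?_⟩)
      fun B hB x hx => ⟨Gn_low S T hB hx.1, fun A => ?_⟩
    · obtain ⟨B, hB, C, hC, D, hD, rfl⟩ := S.parts A
      rw [hadd, hadd, hu D hD x hx, add_zero]
      exact Submodule.add_mem _ (Gn_low S T hB (S0_le S T hx)) (S0_le S T (hd C hC x hx))
    · rw [hcomm A B]
      exact Submodule.add_mem _ (hx.2 _) (Gn_low S T hB (hx.2 A))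
  exact (hle hx).2 A

end closure

variable {M : Type v} [NormedAddCommGroup M] [InnerProductSpace ℂ M]

/-- a compatible action -/
structure Act (S : Sys L N) (X : ℕ → M →ₗ[ℂ] M) (r : L →ₗ[ℂ] M →ₗ[ℂ] M) : Prop where
  lie : ∀ A B m, r A (r B m) = r (S.br A B) m + r B (r A m)
  eqv : ∀ A (j : Fin N) m, r A (X j m) = X j (r A m) + ∑ c : Fin N, S.φ A c j • X c m
  adj : ∀ A (a b : M), inner ℂ (r A a) b = inner ℂ a (r (S.st A) b)

/-- weights and a set of indices adapted to them -/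
structure Wt (S : Sys L N) (h : L) (a : Fin N → ℝ) (l : List ℕ) : Prop where
  hdia : h ∈ S.dia
  φh : S.φ h = dm a
  nodup : l.Nodup
  lt : ∀ j ∈ l, j < N
  pos : ∀ j : Fin N, (j : ℕ) ∈ l → 0 < a j
  neg : ∀ j : Fin N, (j : ℕ) ∉ l → a j < 0
  span : ∀ B ∈ S.upp, B ∈ Submodule.span ℂ {E : L | ∃ d : ℝ, 0 < d ∧ S.br h E = (d : ℂ) • E}
  upp : ∀ B ∈ S.upp, ∀ i j, S.φ B i j ≠ 0 → 0 < a i - a j

/-- `μ` is a top eigenvalue -/
def IsTop (T : M →ₗ[ℂ] M) (μ : ℂ) : Prop :=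
  ∀ (c : ℂ) (z : M), 0 < c.re → T z = (μ + c) • z → z = 0

section act

variable {S : Sys L N} {X Y : ℕ → M →ₗ[ℂ] M} {r : L →ₗ[ℂ] M →ₗ[ℂ] M}

/-- the adjoint relation -/
theorem Act.eqvY (h : Act S X r)
    (hXY : ∀ (j : Fin N) (a b : M), inner ℂ (X j a) b = inner ℂ a (Y j b))
    (A : L) (j : Fin N) (m : M) :
    r A (Y j m) = Y j (r A m) - ∑ c : Fin N, S.φ A j c • Y c m := by
  refine ext_inner_left ℂ fun a => ?_
  have h1 := h.adj (S.st A) a (Y j m)
  rw [S.st_st] at h1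
  rw [← h1, ← hXY]
  have h2 := h.eqv (S.st A) j a
  have h3 : X j (r (S.st A) a) = r (S.st A) (X j a) - ∑ c : Fin N, S.φ (S.st A) c j • X c a := by
    rw [h2, add_sub_cancel_right]
  rw [h3, inner_sub_left, inner_sub_right, h.adj, S.st_st, hXY, sum_inner, inner_sum]
  congr 1
  refine sum_congr rfl fun c _ => ?_
  rw [inner_smul_left, inner_smul_right, hXY, S.φ_st, Matrix.conjTranspose_apply]
  simp

variable {h0 : L} {a : Fin N → ℝ} {l : List ℕ} {μ : ℂ} {m : M}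

theorem T_X (h : Act S X r) (hw : Wt S h0 a l) (j : Fin N) (m : M) :
    r h0 (X j m) = X j (r h0 m) + ((a j : ℝ) : ℂ) • X j m := by
  rw [h.eqv, hw.φh, sum_eq_single j]
  · simp [dm]
  · intro c _ hc
    have e : dm a c j = 0 := by simp [dm, hc]
    rw [e, zero_smul]
  · simp

theorem T_Y (h : Act S X r)
    (hXY : ∀ (j : Fin N) (a b : M), inner ℂ (X j a) b = inner ℂ a (Y j b))
    (hw : Wt S h0 a l) (j : Fin N) (m : M) :
    r h0 (Y j m) = Y j (r h0 m) + ((-(a j) : ℝ) : ℂ) • Y j m := by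
  rw [h.eqvY hXY, hw.φh, sum_eq_single j]
  · simp [dm, sub_eq_add_neg]
  · intro c _ hc
    have e : dm a j c = 0 := by simp [dm, hc.symm]
    rw [e, zero_smul]
  · simp

/-- raising elements kill the top eigenvectors -/
theorem r_upp (h : Act S X r) (hw : Wt S h0 a l) (hμ : IsTop (r h0) μ) (hm : r h0 m = μ • m)
    {B : L} (hB : B ∈ S.upp) : r B m = 0 := by
  refine Submodule.span_induction (p := fun B _ => r B m = 0) ?_ ?_ ?_ ?_ (hw.span B hB)
  · rintro E ⟨d, hd, hE⟩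
    refine hμ (d : ℂ) _ (by simpa using hd) ?_
    rw [h.lie, hE, hm, map_smul, map_smul, LinearMap.smul_apply, add_smul, add_comm]
  · rw [map_zero, LinearMap.zero_apply]
  · intro A B _ _ hA hB
    rw [map_add, LinearMap.add_apply, hA, hB, add_zero]
  · intro c A _ hA
    rw [map_smul, LinearMap.smul_apply, hA, smul_zero]

theorem top_X (h : Act S X r) (hw : Wt S h0 a l) (hμ : IsTop (r h0) μ)
    (hm : r h0 m = μ • m) (j : ℕ) (hj : j < N) (hjl : j ∈ l) : X j m = 0 := by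
  refine hμ ((a ⟨j, hj⟩ : ℝ) : ℂ) _ (by simpa using hw.pos ⟨j, hj⟩ hjl) ?_
  have := T_X h hw ⟨j, hj⟩ m
  rw [hm, map_smul] at this
  rw [this, add_smul]

theorem top_Y (h : Act S X r)
    (hXY : ∀ (j : Fin N) (a b : M), inner ℂ (X j a) b = inner ℂ a (Y j b))
    (hw : Wt S h0 a l) (hμ : IsTop (r h0) μ)
    (hm : r h0 m = μ • m) (j : ℕ) (hj : j < N) (hjl : j ∉ l) : Y j m = 0 := by
  refine hμ ((-(a ⟨j, hj⟩) : ℝ) : ℂ) _ ?_ ?_
  · have := hw.neg ⟨j, hj⟩ hjl
    rw [Complex.ofReal_re]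
    linarith
  have := T_Y h hXY hw ⟨j, hj⟩ m
  rw [hm, map_smul] at this
  rw [this, add_smul]

/-- the action on the Koszul complex -/
def LL (S : Sys L N) (r : L →ₗ[ℂ] M →ₗ[ℂ] M) (A : L) : KT M N →ₗ[ℂ] KT M N :=
  dG ℂ M (S.φ A) + KTmap (r A) N

theorem LL_apply (A : L) (x : KT M N) :
    LL S r A x = dG ℂ M (S.φ A) x + KTmap (r A) N x := rfl

theorem LL_Hm (h : Act S X r)
    (hXY : ∀ (j : Fin N) (a b : M), inner ℂ (X j a) b = inner ℂ a (Y j b))
    (A : L) {e : ℤ} {x : KT M N} (hx : x ∈ Hm N X Y e) :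
    LL S r A x ∈ Hm N X Y e := by
  rw [mem_Hm] at hx ⊢
  refine ⟨⟨?_, ?_⟩, ?_⟩
  · rw [LL_apply, ← L_d (S.φ A) (r A) X (h.eqv A), hx.1.1, map_zero, map_zero, add_zero]
  · rw [LL_apply, ← L_dst (S.φ A) (r A) Y (fun j m => h.eqvY hXY A j m), hx.1.2, map_zero,
      map_zero, add_zero]
  · exact Submodule.add_mem _ (dG_G X (S.φ A) e x hx.2) (KTmap_G (r A) X X N e x hx.2)

theorem LL_add (A B : L) (x : KT M N) : LL S r (A + B) x = LL S r A x + LL S r B x := by
  rw [LL_apply, LL_apply, LL_apply, map_add, dG_add, map_add, KTmap_add']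
  abel

theorem LL_comm (h : Act S X r) (A B : L) (x : KT M N) :
    LL S r A (LL S r B x) = LL S r (S.br A B) x + LL S r B (LL S r A x) := by
  have e : r A ∘ₗ r B = r (S.br A B) + r B ∘ₗ r A := by
    ext m
    exact h.lie A B m
  have e2 : KTmap (r A) N (KTmap (r B) N x) =
      KTmap (r (S.br A B)) N x + KTmap (r B) N (KTmap (r A) N x) := by
    rw [← KTmap_comp, e, KTmap_add', KTmap_comp]
  simp only [LL_apply, map_add, dG_KT]
  rw [dG_comm (S.φ A) (S.φ B) x, e2, S.φ_br]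
  abel

theorem LL_adj (h : Act S X r) (A : L) (x y : KT M N) :
    ip N (LL S r A x) y = ip N x (LL S r (S.st A) y) := by
  rw [LL_apply, LL_apply, ip_add_left, ip_add_right, ip_dG, ip_KT _ _ (h.adj A), S.φ_st]

/-- the highest weight vector is harmonic -/
theorem vL_Hm (h : Act S X r)
    (hXY : ∀ (j : Fin N) (a b : M), inner ℂ (X j a) b = inner ℂ a (Y j b))
    (hw : Wt S h0 a l) (hμ : IsTop (r h0) μ) (hm : r h0 m = μ • m) :
    vL ℂ N l m ∈ Hm N X Y (l.length : ℤ) := by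
  rw [mem_Hm]
  exact ⟨⟨d_vL X l m fun j hj hjl => top_X h hw hμ hm j hj hjl,
    dst_vL Y l m fun j hj hjl => top_Y h hXY hw hμ hm j hj hjl⟩, vL_G X N m l⟩

theorem upp_mem (hw : Wt S h0 a l) {B : L} (hB : B ∈ S.upp)
    (i j : Fin N) (hij : S.φ B i j ≠ 0) (hj : (j : ℕ) ∈ l) : (i : ℕ) ∈ l ∧ i ≠ j := by
  have h1 := hw.upp B hB i j hij
  constructor
  · by_contra hi
    have h2 := hw.neg i hi
    have h3 := hw.pos j hj
    linarith
  · rintro rfl
    linarith

/-- raising elements kill the highest weight vector -/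
theorem LL_upp (h : Act S X r) (hw : Wt S h0 a l) (hμ : IsTop (r h0) μ)
    (hm : r h0 m = μ • m) {B : L} (hB : B ∈ S.upp) : LL S r B (vL ℂ N l m) = 0 := by
  rw [LL_apply, dG_upp (S.φ B) l (fun i j => upp_mem hw hB i j), KT_vL,
    r_upp h hw hμ hm hB, vL_zero, add_zero]

/-- the exterior products generated by the vector of the list -/
def Lam (S : Sys L N) (l : List ℕ) : Submodule ℂ (KT ℂ N) :=
  Gn S (fun A => dG ℂ ℂ (S.φ A)) (Submodule.span ℂ {vL ℂ N l (1 : ℂ)})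

/-- the top eigenspace of the highest weight vectors -/
def Sp (T : M →ₗ[ℂ] M) (N : ℕ) (l : List ℕ) (μ : ℂ) : Submodule ℂ (KT M N) where
  carrier := {x | ∃ m : M, T m = μ • m ∧ x = vL ℂ N l m}
  add_mem' := by
    rintro _ _ ⟨m, hm, rfl⟩ ⟨m', hm', rfl⟩
    exact ⟨m + m', by rw [map_add, hm, hm', smul_add], (vL_add N m m' l).symm⟩
  zero_mem' := ⟨0, by rw [map_zero, smul_zero], (vL_zero N l).symm⟩
  smul_mem' := by
    rintro c _ ⟨m, hm, rfl⟩
    exact ⟨c • m, by rw [map_smul, hm, smul_comm], (vL_smul N c m l).symm⟩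

/-- the module generated by the highest weight vectors -/
def WW (S : Sys L N) (r : L →ₗ[ℂ] M →ₗ[ℂ] M) (h0 : L) (l : List ℕ) (μ : ℂ) :
    Submodule ℂ (KT M N) := Gn S (LL S r) (Sp (r h0) N l μ)

theorem WW_stable (h : Act S X r) (hw : Wt S h0 a l) (hμ : IsTop (r h0) μ)
    (A : L) {x : KT M N} (hx : x ∈ WW S r h0 l μ) : LL S r A x ∈ WW S r h0 l μ := by
  refine Gn_stable S (LL S r) (fun A B x => LL_add A B x) (fun A B x => LL_comm h A B x)
    ?_ ?_ A x hx
  · rintro B hB _ ⟨m, hm, rfl⟩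
    obtain ⟨c, hc⟩ := dG_dia (k := ℂ) (M := M) (S.φ B) (S.φ_dia B hB) l
    rw [LL_apply, hc, KT_vL]
    refine Submodule.add_mem _ (Submodule.smul_mem _ _ ⟨m, hm, rfl⟩) ⟨r B m, ?_, rfl⟩
    rw [h.lie, S.dia_comm _ hw.hdia _ hB, map_zero, LinearMap.zero_apply, zero_add, hm, map_smul]
  · rintro B hB _ ⟨m, hm, rfl⟩
    exact LL_upp h hw hμ hm hB

/-- the module generated by the highest weight vectors is harmonic -/
theorem WW_le_Hm (h : Act S X r)
    (hXY : ∀ (j : Fin N) (a b : M), inner ℂ (X j a) b = inner ℂ a (Y j b))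
    (hw : Wt S h0 a l) (hμ : IsTop (r h0) μ) : WW S r h0 l μ ≤ Hm N X Y (l.length : ℤ) := by
  refine Gn_le S _ ?_ fun B _ x hx => LL_Hm h hXY B hx
  rintro _ ⟨m, hm, rfl⟩
  exact vL_Hm h hXY hw hμ hm

/-- scalar product with `m` -/
def phi (m : M) : M →ₗ[ℂ] ℂ := (innerSL ℂ m).toLinearMap

theorem phi_apply (m x : M) : phi m x = inner ℂ m x := rfl

/-- the module generated by the highest weight vectors is at least as large as the one generated
in the exterior algebra -/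
theorem Lam_le (h : Act S X r) (hw : Wt S h0 a l) (hμ : IsTop (r h0) μ)
    (hm : r h0 m = μ • m) (hm0 : m ≠ 0) :
    Lam S l ≤ (WW S r h0 l μ).map (KTmap (phi m) N) := by
  refine Gn_le S _ ?_ ?_
  · rw [Submodule.span_singleton_le_iff_mem]
    have hc : phi m m ≠ 0 := by
      rw [phi_apply]
      exact inner_self_ne_zero.2 hm0
    refine ⟨(phi m m)⁻¹ • vL ℂ N l m, Submodule.smul_mem _ _ (S0_le S _ ⟨m, hm, rfl⟩), ?_⟩
    rw [map_smul, KT_vL, ← vL_smul, smul_eq_mul, inv_mul_cancel₀ hc]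
  · rintro B hB _ ⟨x, hx, rfl⟩
    refine ⟨LL S r B x, Gn_low S _ hB hx, ?_⟩
    have e : phi m ∘ₗ r B = 0 := by
      ext y
      have h1 := h.adj (S.st B) m y
      rw [S.st_st] at h1
      rw [LinearMap.comp_apply, phi_apply, ← h1,
        r_upp h hw hμ hm (S.st_low B hB), inner_zero_left, LinearMap.zero_apply]
    rw [LL_apply, map_add, dG_KT, ← KTmap_comp, e, KTmap_zero, add_zero]

/-- there is a submodule of harmonic classes which is at least as large as `Lam` -/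
theorem exists_WW [FiniteDimensional ℂ M] [Nontrivial M] (h : Act S X r) (hw : Wt S h0 a l) :
    ∃ μ : ℂ, IsTop (r h0) μ ∧
      Module.finrank ℂ (Lam S l) ≤ Module.finrank ℂ (WW S r h0 l μ) := by
  obtain ⟨μ, m, hm0, hm, htop⟩ := exists_top (r h0)
  exact ⟨μ, htop, (Submodule.finrank_mono (Lam_le h hw htop hm hm0)).trans
    (Submodule.finrank_map_le _ _)⟩

end act

section orth

/-- basis vectors of different sets are orthogonal -/
theorem ip_vL {l l' : List ℕ} (m m' : M) {j : ℕ} (hj : j < N) (h1 : j ∈ l) (h2 : j ∉ l') :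
    ip N (vL ℂ N l m) (vL ℂ N l' m') = 0 := by
  have e := An_Cr_self (k := ℂ) N j hj (vL ℂ N l m)
  rw [Cr_vL N j m l h1, map_zero] at e
  rw [sub_eq_zero.1 e.symm, ip_Cr, An_vL N j m' l' h2, ip_zero_right]

variable {S : Sys L N} {X : ℕ → M →ₗ[ℂ] M} {r : L →ₗ[ℂ] M →ₗ[ℂ] M}
variable {h0 h1 : L} {a b : Fin N → ℝ} {l l' : List ℕ} {μ ν : ℂ}

theorem WW_orth (h : Act S X r) (hw : Wt S h0 a l) (hμ : IsTop (r h0) μ) (hw' : Wt S h1 b l')
    (hν : IsTop (r h1) ν) {j : ℕ} (hj : j < N) (hjl : j ∈ l) (hjl' : j ∉ l')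
    {x y : KT M N} (hx : x ∈ WW S r h0 l μ) (hy : y ∈ WW S r h1 l' ν) : ip N x y = 0 := by
  -- step one
  have s1 : ∀ m' : M, r h1 m' = ν • m' → ∀ x ∈ WW S r h0 l μ, ip N (vL ℂ N l' m') x = 0 := by
    intro m' hm' x hx
    let U : Submodule ℂ (KT M N) :=
      { carrier := {x | ip N (vL ℂ N l' m') x = 0}
        add_mem' := fun {a b} ha hb => by
          rw [Set.mem_setOf_eq] at *
          rw [ip_add_right, ha, hb, add_zero]
        zero_mem' := ip_zero_right _ _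
        smul_mem' := fun c x hx => by
          rw [Set.mem_setOf_eq] at *
          rw [ip_smul_right, hx, mul_zero] }
    refine (Gn_le S (LL S r) (W := U) ?_ ?_) hx
    · rintro _ ⟨m, -, rfl⟩
      show ip N (vL ℂ N l' m') (vL ℂ N l m) = 0
      rw [← ip_conj, ip_vL m m' hj hjl hjl', map_zero]
    · intro B hB x _
      show ip N (vL ℂ N l' m') (LL S r B x) = 0
      have e := LL_adj h (S.st B) (vL ℂ N l' m') x
      rw [S.st_st] at e
      rw [← e, LL_upp h hw' hν hm' (S.st_low B hB), ip_zero_left]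
  let U : Submodule ℂ (KT M N) :=
    { carrier := {y | ∀ x ∈ WW S r h0 l μ, ip N x y = 0}
      add_mem' := fun {a b} ha hb x hx => by
        rw [ip_add_right, ha x hx, hb x hx, add_zero]
      zero_mem' := fun x _ => ip_zero_right _ _
      smul_mem' := fun c y hy x hx => by
        rw [ip_smul_right, hy x hx, mul_zero] }
  refine (Gn_le S (LL S r) (W := U) ?_ ?_) hy x hx
  · rintro _ ⟨m', hm', rfl⟩ x hx
    rw [← ip_conj, s1 m' hm' x hx, map_zero]
  · intro B _ y hy x hx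
    have e := LL_adj h (S.st B) x y
    rw [S.st_st] at e
    rw [← e]
    exact hy _ (WW_stable h hw hμ _ hx)

/-- orthogonal subspaces are independent -/
theorem sum_le [FiniteDimensional ℂ M] {ι : Type} [Fintype ι] (W : ι → Submodule ℂ (KT M N))
    (horth : ∀ i j, i ≠ j → ∀ x ∈ W i, ∀ y ∈ W j, ip N x y = 0) (H : Submodule ℂ (KT M N))
    (hle : ∀ i, W i ≤ H) : ∑ i, Module.finrank ℂ (W i) ≤ Module.finrank ℂ H := by
  classical
  let F : (∀ i, W i) →ₗ[ℂ] H :=
    ∑ i, (Submodule.inclusion (hle i)) ∘ₗ (LinearMap.proj i)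
  have hF : ∀ x, ((F x : H) : KT M N) = ∑ i, (x i : KT M N) := by
    intro x
    simp only [F, LinearMap.sum_apply, LinearMap.comp_apply, LinearMap.proj_apply]
    rw [Submodule.coe_sum]
    rfl
  have hinj : Function.Injective F := by
    rw [injective_iff_map_eq_zero]
    intro x hx
    have h0 : ∑ i, (x i : KT M N) = 0 := by rw [← hF, hx]; rfl
    funext i
    refine Subtype.ext (ip_self_zero N (x i : KT M N) ?_)
    have h1 : ip N (x i : KT M N) (∑ j, (x j : KT M N)) = ip N (x i : KT M N) (x i) := by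
      rw [ip_sum_right, sum_eq_single i]
      · intro j _ hj
        exact horth i j (Ne.symm hj) _ (x i).2 _ (x j).2
      · simp
    rw [← h1, h0, ip_zero_right]
    rfl
  have h2 := LinearMap.finrank_le_finrank_of_injective hinj
  rwa [Module.finrank_pi_fintype] at h2

end orth

end

end Pool.Agent.E8helper6.BH
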