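import Pool.Agent.E8helper33.BE.Ip
import Pool.Agent.E8helper33.BE.Top

set_option autoImplicit false

/-!
# The vectors which are killed by all raising operators
-/

namespace Pool.Agent.E8helper6.BH

open Pool.Agent.W650 Pool.Agent.E8helper33.BE Finset

universe v

noncomputable section

variable {M : Type v} [NormedAddCommGroup M] [InnerProductSpace ℂ M] {N : ℕ}

/-- real part of the scalar product of two moved vectors -/
def gg (z : KT M N) (x y x' y' : Fin N) : ℝ :=
  (ip N (Cr (k := ℂ) (M := M) N x (An (k := ℂ) (M := M) N y z))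
    (Cr (k := ℂ) (M := M) N x' (An (k := ℂ) (M := M) N y' z))).re

theorem gg_symm (z : KT M N) (x y x' y' : Fin N) : gg z x y x' y' = gg z x' y' x y := by
  unfold gg
  rw [← ip_conj, Complex.conj_re]

theorem gg_swap (z : KT M N) {x y x' y' : Fin N} (h1 : x ≠ x') (h2 : x ≠ y) :
    gg z x y x' y' = -gg z x x' y y' := by
  unfold gg
  have e1 : (x : ℕ) ≠ (x' : ℕ) := fun h => h1 (Fin.ext h)
  have e2 : (x : ℕ) ≠ (y : ℕ) := fun h => h2 (Fin.ext h)
  rw [ip_Cr, ip_Cr, An_Cr_ne N _ _ e1, An_Cr_ne N _ _ e2, ip_neg_right, ip_neg_right,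
    ← ip_An, ← ip_An, An_An N (y : ℕ) (x' : ℕ), ip_neg_left]
  simp

theorem gg_nonneg (z : KT M N) (x y : Fin N) : 0 ≤ gg z x y x y := ip_self_nonneg _ _

theorem gg_zero (z : KT M N) (x y : Fin N) (h : gg z x y x y = 0) :
    Cr (k := ℂ) (M := M) N x (An (k := ℂ) (M := M) N y z) = 0 := ip_self_zero _ _ h

section sums

/-- quadruples -/
abbrev T4 (N : ℕ) : Type := Fin N × Fin N × Fin N × Fin N

/-- exchange of the two pairs -/
def e1 (N : ℕ) : T4 N ≃ T4 N where
  toFun t := (t.2.2.1, t.2.2.2, t.1, t.2.1)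
  invFun t := (t.2.2.1, t.2.2.2, t.1, t.2.1)
  left_inv _ := rfl
  right_inv _ := rfl

/-- exchange of the middle entries -/
def e2 (N : ℕ) : T4 N ≃ T4 N where
  toFun t := (t.1, t.2.2.1, t.2.1, t.2.2.2)
  invFun t := (t.1, t.2.2.1, t.2.1, t.2.2.2)
  left_inv _ := rfl
  right_inv _ := rfl

variable (row col : Fin N → ℕ)

/-- two vertical pairs in the same rows -/
def PP (t : T4 N) : Prop :=
  row t.1 < row t.2.1 ∧ col t.1 = col t.2.1 ∧ col t.2.2.1 = col t.2.2.2 ∧
    row t.2.2.1 = row t.1 ∧ row t.2.2.2 = row t.2.1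

/-- the value at a quadruple -/
def gt (z : KT M N) (t : T4 N) : ℝ := gg z t.1 t.2.1 t.2.2.1 t.2.2.2

open Classical in
/-- the decomposition of the sum -/
theorem split (z : KT M N) (inj : ∀ x y, row x = row y → col x = col y → x = y) :
    ∑ t : T4 N, (if PP row col t then gt z t else 0) =
      ∑ x : Fin N, ∑ y : Fin N, (if row x < row y ∧ col x = col y then gg z x y x y else 0) +
      2 * ∑ t : T4 N, (if PP row col t ∧ col t.1 < col t.2.2.1 then gt z t else 0) := by
  have h1 : ∀ t : T4 N, (if PP row col t then gt z t else 0) =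
      (if PP row col t ∧ col t.1 = col t.2.2.1 then gt z t else 0) +
      ((if PP row col t ∧ col t.1 < col t.2.2.1 then gt z t else 0) +
      (if PP row col t ∧ col t.2.2.1 < col t.1 then gt z t else 0)) := by
    intro t
    by_cases hP : PP row col t
    · rcases lt_trichotomy (col t.1) (col t.2.2.1) with h | h | h
      · simp [hP, h, h.ne, not_lt.2 h.le]
      · simp [hP, h]
      · simp [hP, h, h.ne', not_lt.2 h.le]
    · simp [hP]
  have h2 : ∑ t : T4 N, (if PP row col t ∧ col t.2.2.1 < col t.1 then gt z t else 0) =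
      ∑ t : T4 N, (if PP row col t ∧ col t.1 < col t.2.2.1 then gt z t else 0) := by
    refine Fintype.sum_equiv (e1 N) _ _ fun t => ?_
    have hP : PP row col (e1 N t) ↔ PP row col t := by
      unfold PP e1
      simp only [Equiv.coe_fn_mk]
      constructor
      · rintro ⟨a, b, c, d, e⟩
        exact ⟨by omega, c, b, d.symm, e.symm⟩
      · rintro ⟨a, b, c, d, e⟩
        exact ⟨by omega, c, b, d.symm, e.symm⟩
    have hg : gt z (e1 N t) = gt z t := gg_symm _ _ _ _ _
    rw [hg]
    refine if_congr ?_ rfl rfl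
    rw [hP]
    exact Iff.rfl
  have h3 : ∑ t : T4 N, (if PP row col t ∧ col t.1 = col t.2.2.1 then gt z t else 0) =
      ∑ x : Fin N, ∑ y : Fin N, (if row x < row y ∧ col x = col y then gg z x y x y else 0) := by
    rw [Fintype.sum_prod_type]
    refine sum_congr rfl fun x _ => ?_
    rw [Fintype.sum_prod_type]
    refine sum_congr rfl fun y _ => ?_
    rw [Fintype.sum_prod_type, sum_eq_single x, sum_eq_single y]
    · refine if_congr ?_ rfl rfl
      unfold PP
      constructor
      · rintro ⟨⟨a, b, -⟩, -⟩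
        exact ⟨a, b⟩
      · rintro ⟨a, b⟩
        exact ⟨⟨a, b, b, rfl, rfl⟩, rfl⟩
    · intro y' _ hy
      rw [if_neg]
      rintro ⟨⟨a, b, c, d, e⟩, f⟩
      exact hy (inj _ _ e (by simp only at *; omega))
    · simp
    · intro x' _ hx
      refine sum_eq_zero fun y' _ => ?_
      rw [if_neg]
      rintro ⟨⟨a, b, c, d, e⟩, f⟩
      exact hx (inj _ _ d f.symm)
    · simp
  rw [sum_congr rfl fun t _ => h1 t, sum_add_distrib, sum_add_distrib, h2, h3]
  ring

open Classical in
/-- the two off-diagonal sums cancel -/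
theorem cancel (z : KT M N) :
    ∑ t : T4 N, (if PP row col t ∧ col t.1 < col t.2.2.1 then gt z t else 0) =
      -∑ t : T4 N, (if PP col row t ∧ row t.1 < row t.2.2.1 then gt z t else 0) := by
  rw [← sum_neg_distrib]
  refine Fintype.sum_equiv (e2 N) _ _ fun t => ?_
  have hP : (PP row col t ∧ col t.1 < col t.2.2.1) ↔
      (PP col row (e2 N t) ∧ row (e2 N t).1 < row (e2 N t).2.2.1) := by
    unfold PP e2
    simp only [Equiv.coe_fn_mk]
    constructor
    · rintro ⟨⟨a, b, c, d, e⟩, f⟩
      exact ⟨⟨f, d.symm, e.symm, b.symm, c.symm⟩, a⟩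
    · rintro ⟨⟨a, b, c, d, e⟩, f⟩
      exact ⟨⟨f, d.symm, e.symm, b.symm, c.symm⟩, a⟩
  by_cases h : PP row col t ∧ col t.1 < col t.2.2.1
  · rw [if_pos h, if_pos (hP.1 h)]
    refine gg_swap z ?_ ?_
    · intro e
      have := h.2
      rw [e] at this
      exact lt_irrefl _ this
    · intro e
      have := h.1.1
      rw [e] at this
      exact lt_irrefl _ this
  · rw [if_neg h, if_neg fun h' => h (hP.2 h'), neg_zero]

open Classical in
/-- the raising operators give the vanishing of the sum -/
theorem sum_zero (z : KT M N)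
    (hR : ∀ x y : Fin N, row x < row y → col x = col y → ∑ x' : Fin N, ∑ y' : Fin N,
      (if col x' = col y' ∧ row x' = row x ∧ row y' = row y then
        Cr (k := ℂ) (M := M) N x' (An (k := ℂ) (M := M) N y' z) else 0) = 0) :
    ∑ t : T4 N, (if PP row col t then gt z t else 0) = 0 := by
  rw [Fintype.sum_prod_type]
  refine sum_eq_zero fun x _ => ?_
  rw [Fintype.sum_prod_type]
  refine sum_eq_zero fun y _ => ?_
  by_cases h : row x < row y ∧ col x = col y
  · have h1 := hR x y h.1 h.2
    have h2 := ip_zero_right N (Cr (k := ℂ) (M := M) N x (An (k := ℂ) (M := M) N y z))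
    rw [← h1, ip_sum_right] at h2
    have h3 := congrArg Complex.re h2
    rw [Complex.re_sum, Complex.zero_re] at h3
    rw [Fintype.sum_prod_type]
    refine Eq.trans (sum_congr rfl fun x' _ => ?_) h3
    rw [ip_sum_right, Complex.re_sum]
    refine sum_congr rfl fun y' _ => ?_
    by_cases hc : col x' = col y' ∧ row x' = row x ∧ row y' = row y
    · rw [if_pos hc, if_pos ⟨h.1, h.2, hc.1, hc.2.1, hc.2.2⟩]
      rfl
    · rw [if_neg hc, if_neg, ip_zero_right, Complex.zero_re]
      rintro ⟨-, -, a, b, c⟩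
      exact hc ⟨a, b, c⟩
  · refine sum_eq_zero fun t _ => ?_
    rw [if_neg]
    rintro ⟨a, b, -⟩
    exact h ⟨a, b⟩

open Classical in
/-- **Vectors killed by the raising operators.** -/
theorem kernel (z : KT M N) (inj : ∀ x y, row x = row y → col x = col y → x = y)
    (hR : ∀ x y : Fin N, row x < row y → col x = col y → ∑ x' : Fin N, ∑ y' : Fin N,
      (if col x' = col y' ∧ row x' = row x ∧ row y' = row y then
        Cr (k := ℂ) (M := M) N x' (An (k := ℂ) (M := M) N y' z) else 0) = 0)
    (hC : ∀ x y : Fin N, col x < col y → row x = row y → ∑ x' : Fin N, ∑ y' : Fin N,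
      (if row x' = row y' ∧ col x' = col x ∧ col y' = col y then
        Cr (k := ℂ) (M := M) N x' (An (k := ℂ) (M := M) N y' z) else 0) = 0) :
    (∀ x y : Fin N, row x < row y → col x = col y →
      Cr (k := ℂ) (M := M) N x (An (k := ℂ) (M := M) N y z) = 0) ∧
    (∀ x y : Fin N, col x < col y → row x = row y →
      Cr (k := ℂ) (M := M) N x (An (k := ℂ) (M := M) N y z) = 0) := by
  have a1 := split row col z inj
  have a2 := split col row z fun x y h1 h2 => inj x y h2 h1
  rw [sum_zero row col z hR] at a1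
  rw [sum_zero col row z hC] at a2
  rw [cancel row col z] at a1
  have n1 : ∀ x y : Fin N, 0 ≤ (if row x < row y ∧ col x = col y then gg z x y x y else 0) :=
    fun x y => by split_ifs; exacts [gg_nonneg z x y, le_rfl]
  have n2 : ∀ x y : Fin N, 0 ≤ (if col x < col y ∧ row x = row y then gg z x y x y else 0) :=
    fun x y => by split_ifs; exacts [gg_nonneg z x y, le_rfl]
  have m1 : 0 ≤ ∑ x : Fin N, ∑ y : Fin N,
      (if row x < row y ∧ col x = col y then gg z x y x y else 0) :=
    sum_nonneg fun x _ => sum_nonneg fun y _ => n1 x y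
  have m2 : 0 ≤ ∑ x : Fin N, ∑ y : Fin N,
      (if col x < col y ∧ row x = row y then gg z x y x y else 0) :=
    sum_nonneg fun x _ => sum_nonneg fun y _ => n2 x y
  constructor
  · intro x y hr hc
    have h0 : ∑ x : Fin N, ∑ y : Fin N,
      (if row x < row y ∧ col x = col y then gg z x y x y else 0) = 0 := by linarith
    have h1 := (sum_eq_zero_iff_of_nonneg fun x _ => sum_nonneg fun y _ => n1 x y).1 h0 x
      (mem_univ x)
    have h2 := (sum_eq_zero_iff_of_nonneg fun y _ => n1 x y).1 h1 y (mem_univ y)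
    rw [if_pos ⟨hr, hc⟩] at h2
    exact gg_zero z x y h2
  · intro x y hr hc
    have h0 : ∑ x : Fin N, ∑ y : Fin N,
      (if col x < col y ∧ row x = row y then gg z x y x y else 0) = 0 := by linarith
    have h1 := (sum_eq_zero_iff_of_nonneg fun x _ => sum_nonneg fun y _ => n2 x y).1 h0 x
      (mem_univ x)
    have h2 := (sum_eq_zero_iff_of_nonneg fun y _ => n2 x y).1 h1 y (mem_univ y)
    rw [if_pos ⟨hr, hc⟩] at h2
    exact gg_zero z x y h2

end sums

end

end Pool.Agent.E8helper6.BH
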