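import Pool.Agent.E8helper6.BH.Gen

set_option autoImplicit false

/-!
# The Lie algebra of a product of general linear groups acting on a sum of matrix spaces
-/

namespace Pool.Agent.E8helper6.BH

open Pool.Agent.W650 Pool.Agent.E8helper33.BE Finset

noncomputable section

/-- The pairs `(A, B)` of square matrices such that `A i k = 0` if `i`, `k` are in different blocks
(`p i ≠ p k`) and `B j l = 0` if `j`, `l` are in different blocks (`q j ≠ q l`): the Lie algebra of
the product of the groups `GL (rows of the block b) × GL (columns of the block b)`. -/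
def glBlocks {m n : ℕ} {β : Type} (p : Fin m → β) (q : Fin n → β) :
    Submodule ℂ (Matrix (Fin m) (Fin m) ℂ × Matrix (Fin n) (Fin n) ℂ) where
  carrier := {A | (∀ i k, p i ≠ p k → A.1 i k = 0) ∧ ∀ j l, q j ≠ q l → A.2 j l = 0}
  zero_mem' := ⟨fun _ _ _ => rfl, fun _ _ _ => rfl⟩
  add_mem' := fun {A B} hA hB => ⟨fun i k h => by
      rw [Prod.fst_add, Matrix.add_apply, hA.1 i k h, hB.1 i k h, add_zero],
    fun j l h => by rw [Prod.snd_add, Matrix.add_apply, hA.2 j l h, hB.2 j l h, add_zero]⟩
  smul_mem' := fun c A hA => ⟨fun i k h => by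
      rw [Prod.smul_fst, Matrix.smul_apply, hA.1 i k h, smul_zero],
    fun j l h => by rw [Prod.smul_snd, Matrix.smul_apply, hA.2 j l h, smul_zero]⟩

variable {m n N : ℕ} {β : Type} {p : Fin m → β} {q : Fin n → β}

/-- the variables are at the positions `(row x, col x)`, which fill the blocks -/
structure Fills (p : Fin m → β) (q : Fin n → β) (row : Fin N → Fin m) (col : Fin N → Fin n) :
    Prop where
  inj : ∀ x y, row x = row y → col x = col y → x = y
  mem : ∀ i j, p i = q j ↔ ∃ x, row x = i ∧ col x = j

variable {row : Fin N → Fin m} {col : Fin N → Fin n}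

theorem Fills.pq (F : Fills p q row col) (x : Fin N) : p (row x) = q (col x) :=
  (F.mem _ _).2 ⟨x, rfl, rfl⟩

theorem Fills.sum_col (F : Fills p q row col) (c : Fin n) (g : Fin m → ℂ)
    (hg : ∀ i, p i ≠ q c → g i = 0) :
    ∑ y : Fin N, (if col y = c then g (row y) else 0) = ∑ i, g i := by
  have h1 : ∀ i, g i = ∑ y : Fin N, (if row y = i ∧ col y = c then g i else 0) := by
    intro i
    by_cases h : p i = q c
    · obtain ⟨y, hy1, hy2⟩ := (F.mem _ _).1 h
      rw [sum_eq_single y, if_pos ⟨hy1, hy2⟩]
      · intro z _ hz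
        rw [if_neg]
        rintro ⟨h3, h4⟩
        exact hz (F.inj _ _ (by rw [h3, hy1]) (by rw [h4, hy2]))
      · simp
    · rw [hg i h]; simp
  rw [sum_congr rfl fun i _ => h1 i, sum_comm]
  refine sum_congr rfl fun y _ => ?_
  by_cases hc : col y = c
  · simp [hc]
  · simp [hc]

theorem Fills.sum_row (F : Fills p q row col) (c : Fin m) (g : Fin n → ℂ)
    (hg : ∀ j, p c ≠ q j → g j = 0) :
    ∑ y : Fin N, (if row y = c then g (col y) else 0) = ∑ j, g j := by
  have h1 : ∀ j, g j = ∑ y : Fin N, (if row y = c ∧ col y = j then g j else 0) := by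
    intro j
    by_cases h : p c = q j
    · obtain ⟨y, hy1, hy2⟩ := (F.mem _ _).1 h
      rw [sum_eq_single y, if_pos ⟨hy1, hy2⟩]
      · intro z _ hz
        rw [if_neg]
        rintro ⟨h3, h4⟩
        exact hz (F.inj _ _ (by rw [h3, hy1]) (by rw [h4, hy2]))
      · simp
    · rw [hg j h]; simp
  rw [sum_congr rfl fun i _ => h1 i, sum_comm]
  refine sum_congr rfl fun y _ => ?_
  by_cases hc : row y = c
  · simp [hc]
  · simp [hc]

/-- the action on the variables -/
def phiF (row : Fin N → Fin m) (col : Fin N → Fin n)
    (A : Matrix (Fin m) (Fin m) ℂ × Matrix (Fin n) (Fin n) ℂ) : Matrix (Fin N) (Fin N) ℂ :=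
  fun x y => (if col x = col y then A.1 (row x) (row y) else 0) +
    (if row x = row y then A.2 (col x) (col y) else 0)

theorem phiF_mul (F : Fills p q row col)
    {A B : Matrix (Fin m) (Fin m) ℂ × Matrix (Fin n) (Fin n) ℂ} (hA : A ∈ glBlocks p q)
    (_hB : B ∈ glBlocks p q) (x z : Fin N) :
    (phiF row col A * phiF row col B) x z =
      (if col x = col z then (A.1 * B.1) (row x) (row z) else 0) +
      (if row x = row z then (A.2 * B.2) (col x) (col z) else 0) +
      (A.1 (row x) (row z) * B.2 (col x) (col z) + A.2 (col x) (col z) * B.1 (row x) (row z)) := by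
  have e : ∀ y : Fin N, phiF row col A x y * phiF row col B y z =
      (if col y = col x then (if col x = col z then A.1 (row x) (row y) * B.1 (row y) (row z)
        else 0) else 0) +
      (if row y = row x then (if row x = row z then A.2 (col x) (col y) * B.2 (col y) (col z)
        else 0) else 0) +
      ((if row y = row z ∧ col y = col x then A.1 (row x) (row z) * B.2 (col x) (col z) else 0) +
      (if row y = row x ∧ col y = col z then A.2 (col x) (col z) * B.1 (row x) (row z) else 0)) := by
    intro y
    unfold phiF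
    by_cases h1 : col y = col x <;> by_cases h2 : row y = row x <;> by_cases h3 : col y = col z <;>
      by_cases h4 : row y = row z <;> simp [h1, h2, h3, h4, eq_comm] <;> grind
  rw [Matrix.mul_apply, sum_congr rfl fun y _ => e y, sum_add_distrib, sum_add_distrib,
    sum_add_distrib]
  have s1 : ∑ y : Fin N, (if col y = col x then (if col x = col z then
      A.1 (row x) (row y) * B.1 (row y) (row z) else 0) else 0) =
      if col x = col z then (A.1 * B.1) (row x) (row z) else 0 := by
    have := F.sum_col (col x) (fun i => if col x = col z then A.1 (row x) i * B.1 i (row z) else 0)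
      (fun i hi => by
        rw [hA.1 (row x) i (by rw [F.pq]; exact Ne.symm hi), zero_mul, ite_self])
    rw [this]
    by_cases h : col x = col z
    · simp [h, Matrix.mul_apply]
    · simp [h]
  have s2 : ∑ y : Fin N, (if row y = row x then (if row x = row z then
      A.2 (col x) (col y) * B.2 (col y) (col z) else 0) else 0) =
      if row x = row z then (A.2 * B.2) (col x) (col z) else 0 := by
    have := F.sum_row (row x) (fun i => if row x = row z then A.2 (col x) i * B.2 i (col z) else 0)
      (fun i hi => by
        rw [hA.2 (col x) i (by rw [← F.pq]; exact hi), zero_mul, ite_self])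
    rw [this]
    by_cases h : row x = row z
    · simp [h, Matrix.mul_apply]
    · simp [h]
  have s3 : ∑ y : Fin N, (if row y = row z ∧ col y = col x then
      A.1 (row x) (row z) * B.2 (col x) (col z) else 0) =
      A.1 (row x) (row z) * B.2 (col x) (col z) := by
    by_cases h : p (row z) = q (col x)
    · obtain ⟨y, hy1, hy2⟩ := (F.mem _ _).1 h
      rw [sum_eq_single y, if_pos ⟨hy1, hy2⟩]
      · intro w _ hw
        rw [if_neg]
        rintro ⟨h3, h4⟩
        exact hw (F.inj _ _ (by rw [h3, hy1]) (by rw [h4, hy2]))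
      · simp
    · rw [hA.1 (row x) (row z) (by rw [F.pq]; exact Ne.symm h), zero_mul]; simp
  have s4 : ∑ y : Fin N, (if row y = row x ∧ col y = col z then
      A.2 (col x) (col z) * B.1 (row x) (row z) else 0) =
      A.2 (col x) (col z) * B.1 (row x) (row z) := by
    by_cases h : p (row x) = q (col z)
    · obtain ⟨y, hy1, hy2⟩ := (F.mem _ _).1 h
      rw [sum_eq_single y, if_pos ⟨hy1, hy2⟩]
      · intro w _ hw
        rw [if_neg]
        rintro ⟨h3, h4⟩
        exact hw (F.inj _ _ (by rw [h3, hy1]) (by rw [h4, hy2]))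
      · simp
    · rw [hA.2 (col x) (col z) (by rw [← F.pq]; exact h), zero_mul]; simp
  rw [s1, s2, s3, s4]

theorem mul_mem {A B : Matrix (Fin m) (Fin m) ℂ × Matrix (Fin n) (Fin n) ℂ}
    (hA : A ∈ glBlocks p q) (hB : B ∈ glBlocks p q) : (A.1 * B.1, A.2 * B.2) ∈ glBlocks p q := by
  constructor
  · intro i k h
    show (A.1 * B.1) i k = 0
    rw [Matrix.mul_apply]
    refine sum_eq_zero fun j _ => ?_
    by_cases h1 : p i = p j
    · rw [hB.1 j k (fun h2 => h (h1.trans h2)), mul_zero]
    · rw [hA.1 i j h1, zero_mul]
  · intro i k h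
    show (A.2 * B.2) i k = 0
    rw [Matrix.mul_apply]
    refine sum_eq_zero fun j _ => ?_
    by_cases h1 : q i = q j
    · rw [hB.2 j k (fun h2 => h (h1.trans h2)), mul_zero]
    · rw [hA.2 i j h1, zero_mul]

theorem st_mem {A : Matrix (Fin m) (Fin m) ℂ × Matrix (Fin n) (Fin n) ℂ}
    (hA : A ∈ glBlocks p q) : (A.1.conjTranspose, A.2.conjTranspose) ∈ glBlocks p q := by
  constructor
  · intro i k h
    show A.1.conjTranspose i k = 0
    rw [Matrix.conjTranspose_apply, hA.1 k i (Ne.symm h), star_zero]
  · intro i k h
    show A.2.conjTranspose i k = 0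
    rw [Matrix.conjTranspose_apply, hA.2 k i (Ne.symm h), star_zero]

/-- the elements which vanish at the given positions -/
def pt (p : Fin m → β) (q : Fin n → β) (P : Fin m → Fin m → Prop) (Q : Fin n → Fin n → Prop) :
    Submodule ℂ (glBlocks p q) where
  carrier := {A | (∀ i k, P i k → A.1.1 i k = 0) ∧ ∀ j l, Q j l → A.1.2 j l = 0}
  zero_mem' := ⟨fun _ _ _ => rfl, fun _ _ _ => rfl⟩
  add_mem' := fun {A B} hA hB => ⟨fun i k h => by
      rw [Submodule.coe_add, Prod.fst_add, Matrix.add_apply, hA.1 i k h, hB.1 i k h, add_zero],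
    fun j l h => by
      rw [Submodule.coe_add, Prod.snd_add, Matrix.add_apply, hA.2 j l h, hB.2 j l h, add_zero]⟩
  smul_mem' := fun c A hA => ⟨fun i k h => by
      rw [Submodule.coe_smul, Prod.smul_fst, Matrix.smul_apply, hA.1 i k h, smul_zero],
    fun j l h => by
      rw [Submodule.coe_smul, Prod.smul_snd, Matrix.smul_apply, hA.2 j l h, smul_zero]⟩

/-- the part of an element at the given positions -/
def cut (P : Fin m → Fin m → Prop) (Q : Fin n → Fin n → Prop) [∀ i j, Decidable (P i j)]
    [∀ i j, Decidable (Q i j)] (A : glBlocks p q) : glBlocks p q :=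
  ⟨(part P A.1.1, part Q A.1.2), fun i k h => by
    show (if P i k then A.1.1 i k else 0) = 0
    rw [A.2.1 i k h, ite_self], fun i k h => by
    show (if Q i k then A.1.2 i k else 0) = 0
    rw [A.2.2 i k h, ite_self]⟩

/-- the system -/
def sys (F : Fills p q row col) : Sys (glBlocks p q) N where
  φ := { toFun := fun A => phiF row col A.1
         map_add' := fun A B => by
          ext x y
          simp only [phiF, Matrix.add_apply, Submodule.coe_add, Prod.fst_add, Prod.snd_add]
          split_ifs <;> ring
         map_smul' := fun c A => by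
          ext x y
          simp only [phiF, Matrix.smul_apply, Submodule.coe_smul, Prod.smul_fst, Prod.smul_snd,
            RingHom.id_apply, smul_eq_mul]
          split_ifs <;> ring }
  br A B := ⟨(A.1.1 * B.1.1, A.1.2 * B.1.2), mul_mem A.2 B.2⟩ -
    ⟨(B.1.1 * A.1.1, B.1.2 * A.1.2), mul_mem B.2 A.2⟩
  st A := ⟨(A.1.1.conjTranspose, A.1.2.conjTranspose), st_mem A.2⟩
  low := pt p q (fun i k => i ≤ k) (fun i k => i ≤ k)
  dia := pt p q (fun i k => i ≠ k) (fun i k => i ≠ k)
  upp := pt p q (fun i k => k ≤ i) (fun i k => k ≤ i)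
  st_st A := by
    refine Subtype.ext (Prod.ext ?_ ?_)
    · exact Matrix.conjTranspose_conjTranspose _
    · exact Matrix.conjTranspose_conjTranspose _
  st_low A hA := ⟨fun i k h => by
      show A.1.1.conjTranspose i k = 0
      rw [Matrix.conjTranspose_apply, hA.1 k i h, star_zero], fun i k h => by
      show A.1.2.conjTranspose i k = 0
      rw [Matrix.conjTranspose_apply, hA.2 k i h, star_zero]⟩
  st_upp A hA := ⟨fun i k h => by
      show A.1.1.conjTranspose i k = 0
      rw [Matrix.conjTranspose_apply, hA.1 k i h, star_zero], fun i k h => by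
      show A.1.2.conjTranspose i k = 0
      rw [Matrix.conjTranspose_apply, hA.2 k i h, star_zero]⟩
  parts A := by
    refine ⟨cut (fun i k => k < i) (fun i k => k < i) A, ⟨fun i k h => ?_, fun i k h => ?_⟩,
      cut (fun i k => i = k) (fun i k => i = k) A, ⟨fun i k h => ?_, fun i k h => ?_⟩,
      cut (fun i k => i < k) (fun i k => i < k) A, ⟨fun i k h => ?_, fun i k h => ?_⟩,
      Subtype.ext (Prod.ext ?_ ?_)⟩
    · exact if_neg (not_lt.2 h)
    · exact if_neg (not_lt.2 h)
    · exact if_neg h
    · exact if_neg h
    · exact if_neg (not_lt.2 h)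
    · exact if_neg (not_lt.2 h)
    · have := parts_add A.1.1
      rw [← add_assoc] at this
      exact this.symm
    · have := parts_add A.1.2
      rw [← add_assoc] at this
      exact this.symm
  φ_br A B := by
    ext x z
    rw [Matrix.sub_apply]
    have h1 := phiF_mul F A.2 B.2 x z
    have h2 := phiF_mul F B.2 A.2 x z
    show phiF row col _ x z = (phiF row col A.1 * phiF row col B.1) x z -
      (phiF row col B.1 * phiF row col A.1) x z
    rw [h1, h2]
    simp only [phiF, Submodule.coe_sub, Prod.fst_sub, Prod.snd_sub, Matrix.sub_apply]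
    split_ifs <;> ring
  φ_st A := by
    ext x z
    show phiF row col _ x z = star (phiF row col A.1 z x)
    simp only [phiF, Matrix.conjTranspose_apply, star_add]
    congr 1
    · by_cases h : col x = col z
      · simp [h]
      · simp [h, Ne.symm h]
    · by_cases h : row x = row z
      · simp [h]
      · simp [h, Ne.symm h]
  φ_dia A hA := by
    intro x z hxz
    show phiF row col A.1 x z = 0
    unfold phiF
    by_cases h1 : col x = col z
    · have h2 : row x ≠ row z := fun h2 => hxz (F.inj _ _ h2 h1)
      rw [if_pos h1, if_neg h2, hA.1 _ _ h2, add_zero]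
    · rw [if_neg h1, zero_add]
      split_ifs
      · exact hA.2 _ _ h1
      · rfl
  dia_comm A hA B hB := by
    have key : ∀ {r : ℕ} (U V : Matrix (Fin r) (Fin r) ℂ), (∀ i k, i ≠ k → U i k = 0) →
        (∀ i k, i ≠ k → V i k = 0) → U * V - V * U = 0 := by
      intro r U V hU hV
      ext i k
      rw [Matrix.sub_apply, Matrix.mul_apply, Matrix.mul_apply, sum_eq_single i, sum_eq_single k]
      · by_cases h : i = k
        · subst h
          rw [mul_comm, sub_self]; rfl
        · rw [hV i k h, mul_zero, zero_mul, sub_zero]; rfl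
      · intro b _ hb
        rw [hU b k hb, mul_zero]
      · simp
      · intro b _ hb
        rw [hU i b (Ne.symm hb), zero_mul]
      · simp
    refine Subtype.ext (Prod.ext ?_ ?_)
    · exact key _ _ hA.1 hB.1
    · exact key _ _ hA.2 hB.2

end

end Pool.Agent.E8helper6.BH
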