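import Pool.Agent.E8helper6.BH.Wts
import Pool.Agent.E8helper6.BH.Ker
import Pool.Agent.E8helper33.BE.Main3

set_option autoImplicit false

/-!
# The Young diagrams generate the exterior powers
-/

namespace Pool.Agent.E8helper6.BH

open Pool.Agent.W650 Pool.Agent.E8helper33.BE Finset

universe v

noncomputable section

section lists

variable {M : Type v} [AddCommGroup M] [Module ℂ M]

/-- a permutation of the list changes only the sign -/
theorem vL_perm (N : ℕ) (m : M) {l l' : List ℕ} (h : l.Perm l') :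
    vL ℂ N l m = vL ℂ N l' m ∨ vL ℂ N l m = -vL ℂ N l' m := by
  induction h with
  | nil => exact Or.inl rfl
  | cons x _ ih =>
    rcases ih with ih | ih
    · left
      rw [vL, vL, ih]
    · right
      rw [vL, vL, ih, map_neg]
  | swap x y l =>
    right
    rw [vL, vL, vL, vL, Cr_Cr]
  | trans _ _ ih1 ih2 =>
    rcases ih1 with ih1 | ih1 <;> rcases ih2 with ih2 | ih2
    · left; rw [ih1, ih2]
    · right; rw [ih1, ih2]
    · right; rw [ih1, ih2]
    · left; rw [ih1, ih2, neg_neg]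

theorem vL_succ (N : ℕ) (m : M) : ∀ l : List ℕ, (∀ j ∈ l, j < N) →
    vL ℂ (N + 1) l m = (vL ℂ N l m, 0)
  | [], _ => by rw [vL, vL]; rfl
  | j :: l, h => by
    have hj : j ≠ N := (h j List.mem_cons_self).ne
    rw [vL, vL, vL_succ N m l fun i hi => h i (List.mem_cons_of_mem _ hi), Cr_ne hj, map_zero,
      neg_zero]

end lists

/-- vectors orthogonal to all the products of basis vectors vanish -/
theorem total : ∀ (N : ℕ) (z : KT ℂ N), (∀ l : List ℕ, l.Nodup → (∀ j ∈ l, j < N) →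
    ip N (vL ℂ N l (1 : ℂ)) z = 0) → z = 0
  | 0, z, h => by
    have h1 := h [] List.nodup_nil (fun j hj => by simp at hj)
    have h2 : (inner ℂ (1 : ℂ) (show ℂ from z) : ℂ) = 0 := h1
    have h3 : (show ℂ from z) * (starRingEnd ℂ) 1 = 0 := h2
    rw [map_one, mul_one] at h3
    exact h3
  | N + 1, (a, b), h => by
    have ha : a = 0 := by
      refine total N a fun l hl hl' => ?_
      have h1 := h l hl fun j hj => Nat.lt_succ_of_lt (hl' j hj)
      rwa [vL_succ N _ l hl', ip_succ, ip_zero_left, add_zero] at h1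
    have hb : b = 0 := by
      refine total N b fun l hl hl' => ?_
      have h1 := h (N :: l) (List.nodup_cons.2 ⟨fun hN => lt_irrefl _ (hl' N hN), hl⟩) (by
        intro j hj
        rcases List.mem_cons.1 hj with rfl | hj
        · exact Nat.lt_succ_self _
        · exact Nat.lt_succ_of_lt (hl' j hj))
      rwa [vL, vL_succ N _ l hl', Cr_self, ip_succ, ip_zero_left, zero_add] at h1
    rw [ha, hb]
    rfl

/-- different degrees are orthogonal -/
theorem ip_G {N : ℕ} {e e' : ℤ} (hne : e ≠ e') {x y : KT ℂ N} (hx : x ∈ (koszul zop N).G e)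
    (hy : y ∈ (koszul zop N).G e') : ip N x y = 0 := by
  have h1 := numberF zop e x hx
  have h2 := numberF zop e' y hy
  have h3 : (e' : ℂ) * ip N x y = (e : ℂ) * ip N x y := by
    rw [← ip_smul_right, ← h2, ip_sum_right]
    have h4 : (e : ℂ) * ip N x y = ip N ((e : ℂ) • x) y := by
      rw [ip_smul_left]
      simp
    rw [h4, ← h1, ip_sum_left]
    refine sum_congr rfl fun j _ => ?_
    rw [ip_Cr, ip_An]
  have h5 : ((e' : ℂ) - (e : ℂ)) * ip N x y = 0 := by rw [sub_mul, h3, sub_self]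
  rcases mul_eq_zero.1 h5 with h6 | h6
  · exact absurd (by exact_mod_cast (sub_eq_zero.1 h6).symm) hne
  · exact h6

section lam

variable {L : Type} [AddCommGroup L] [Module ℂ L] {N : ℕ} {S : Sys L N} {h0 : L} {a : Fin N → ℝ}
  {l : List ℕ}

theorem Lam_G (S : Sys L N) (l : List ℕ) : Lam S l ≤ (koszul zop N).G (l.length : ℤ) := by
  refine Gn_le S _ ?_ fun B _ x hx => dG_G zop _ _ x hx
  rw [Submodule.span_singleton_le_iff_mem]
  exact vL_G zop N 1 l

theorem Lam_stable (hw : Wt S h0 a l) (A : L) {x : KT ℂ N} (hx : x ∈ Lam S l) :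
    dG ℂ ℂ (S.φ A) x ∈ Lam S l := by
  refine Gn_stable S (fun A => dG ℂ ℂ (S.φ A)) ?_ ?_ ?_ ?_ A x hx
  · intro A B x
    show dG ℂ ℂ (S.φ (A + B)) x = _
    rw [map_add, dG_add]
  · intro A B x
    show dG ℂ ℂ (S.φ A) (dG ℂ ℂ (S.φ B) x) = _
    rw [dG_comm, S.φ_br]
  · intro B hB x hx
    rw [Submodule.mem_span_singleton] at hx ⊢
    obtain ⟨s, rfl⟩ := hx
    obtain ⟨c, hc⟩ := dG_dia (k := ℂ) (M := ℂ) (S.φ B) (S.φ_dia B hB) l
    refine ⟨s * c, ?_⟩
    show _ = dG ℂ ℂ (S.φ B) (s • vL ℂ N l (1 : ℂ))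
    rw [map_smul, hc, smul_smul]
  · intro B hB x hx
    rw [Submodule.mem_span_singleton] at hx
    obtain ⟨s, rfl⟩ := hx
    show dG ℂ ℂ (S.φ B) (s • vL ℂ N l (1 : ℂ)) = 0
    rw [map_smul, dG_upp (S.φ B) l (fun i j => upp_mem hw hB i j), smul_zero]

theorem vL_Lam (S : Sys L N) (l : List ℕ) : vL ℂ N l (1 : ℂ) ∈ Lam S l :=
  S0_le S _ (Submodule.mem_span_singleton_self _)

/-- a nonzero space which is preserved by all elements contains a nonzero vector which is
killed by all raising elements -/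
theorem exists_hw (hw : Wt S h0 a l) (K : Submodule ℂ (KT ℂ N)) [FiniteDimensional ℂ K]
    (hK : K ≠ ⊥) (hst : ∀ A, ∀ x ∈ K, dG ℂ ℂ (S.φ A) x ∈ K) :
    ∃ z ∈ K, z ≠ 0 ∧ ∀ B ∈ S.upp, dG ℂ ℂ (S.φ B) z = 0 := by
  have hnt : Nontrivial K := (Submodule.nontrivial_iff_ne_bot).2 hK
  let T : Module.End ℂ K := (dG ℂ ℂ (S.φ h0)).restrict (hst h0)
  obtain ⟨μ, z, hz0, hz, htop⟩ := exists_top T
  have hz' : dG ℂ ℂ (S.φ h0) (z : KT ℂ N) = μ • (z : KT ℂ N) := congrArg Subtype.val hz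
  refine ⟨z, z.2, fun h => hz0 (Subtype.ext h), fun B hB => ?_⟩
  refine Submodule.span_induction (p := fun B _ => dG ℂ ℂ (S.φ B) (z : KT ℂ N) = 0)
    ?_ ?_ ?_ ?_ (hw.span B hB)
  · rintro E ⟨d, hd, hE⟩
    have h1 := htop (d : ℂ) ⟨dG ℂ ℂ (S.φ E) (z : KT ℂ N), hst E z z.2⟩ (by simpa using hd) (by
      refine Subtype.ext ?_
      show dG ℂ ℂ (S.φ h0) (dG ℂ ℂ (S.φ E) (z : KT ℂ N)) =
        (μ + (d : ℂ)) • dG ℂ ℂ (S.φ E) (z : KT ℂ N)
      rw [dG_comm, ← S.φ_br, hE, hz', map_smul, map_smul, dG_smul, add_smul, add_comm])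
    exact congrArg Subtype.val h1
  · rw [map_zero, dG_apply]
    simp
  · intro A B _ _ hA hB
    rw [map_add, dG_add, hA, hB, add_zero]
  · intro c A _ hA
    rw [map_smul, dG_smul, hA, smul_zero]

end lam

section young

open Classical

variable {m n N : ℕ} {β : Type} {p : Fin m → β} {q : Fin n → β}
variable {row : Fin N → Fin m} {col : Fin N → Fin n}

theorem hR_of (F : Fills p q row col) {z : KT ℂ N}
    (hz : ∀ B ∈ (sys F).upp, dG ℂ ℂ ((sys F).φ B) z = 0) (x y : Fin N)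
    (h1 : ((row x : Fin m) : ℕ) < ((row y : Fin m) : ℕ))
    (h2 : ((col x : Fin n) : ℕ) = ((col y : Fin n) : ℕ)) :
    ∑ x' : Fin N, ∑ y' : Fin N, (if ((col x' : Fin n) : ℕ) = ((col y' : Fin n) : ℕ) ∧
      ((row x' : Fin m) : ℕ) = ((row x : Fin m) : ℕ) ∧
      ((row y' : Fin m) : ℕ) = ((row y : Fin m) : ℕ) then
        Cr (k := ℂ) (M := ℂ) N x' (An (k := ℂ) (M := ℂ) N y' z) else 0) = 0 := by
  have h2' : col x = col y := Fin.ext h2
  have h3 : p (row x) = p (row y) := by rw [F.pq, F.pq, h2']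
  have hB := hz ⟨(Matrix.single (row x) (row y) 1, 0), fun i k h => by
      show Matrix.single (row x) (row y) (1 : ℂ) i k = 0
      rw [Matrix.single_apply, if_neg]
      rintro ⟨rfl, rfl⟩
      exact h h3, fun _ _ _ => rfl⟩ ⟨fun i k h => by
      show Matrix.single (row x) (row y) (1 : ℂ) i k = 0
      rw [Matrix.single_apply, if_neg]
      rintro ⟨rfl, rfl⟩
      exact absurd h (not_le.2 h1), fun _ _ _ => rfl⟩
  rw [dG_apply] at hB
  refine Eq.trans (sum_congr rfl fun a _ => sum_congr rfl fun b _ => ?_) hB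
  show _ = ((if col a = col b then Matrix.single (row x) (row y) (1 : ℂ) (row a) (row b) else 0) +
      (if row a = row b then (0 : ℂ) else 0)) •
        Cr (k := ℂ) (M := ℂ) N a (An (k := ℂ) (M := ℂ) N b z)
  rw [ite_self, add_zero, Matrix.single_apply]
  by_cases hc : ((col a : Fin n) : ℕ) = ((col b : Fin n) : ℕ) ∧
      ((row a : Fin m) : ℕ) = ((row x : Fin m) : ℕ) ∧
      ((row b : Fin m) : ℕ) = ((row y : Fin m) : ℕ)
  · rw [if_pos hc, if_pos (Fin.ext hc.1), if_pos ⟨(Fin.ext hc.2.1).symm, (Fin.ext hc.2.2).symm⟩,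
      one_smul]
  · rw [if_neg hc]
    have e : (if col a = col b then (if row x = row a ∧ row y = row b then (1 : ℂ) else 0) else 0) =
        0 := by
      by_cases h4 : col a = col b
      · rw [if_pos h4, if_neg]
        rintro ⟨h5, h6⟩
        exact hc ⟨by rw [h4], by rw [h5], by rw [h6]⟩
      · rw [if_neg h4]
    rw [e, zero_smul]

theorem hC_of (F : Fills p q row col) {z : KT ℂ N}
    (hz : ∀ B ∈ (sys F).upp, dG ℂ ℂ ((sys F).φ B) z = 0) (x y : Fin N)
    (h1 : ((col x : Fin n) : ℕ) < ((col y : Fin n) : ℕ))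
    (h2 : ((row x : Fin m) : ℕ) = ((row y : Fin m) : ℕ)) :
    ∑ x' : Fin N, ∑ y' : Fin N, (if ((row x' : Fin m) : ℕ) = ((row y' : Fin m) : ℕ) ∧
      ((col x' : Fin n) : ℕ) = ((col x : Fin n) : ℕ) ∧
      ((col y' : Fin n) : ℕ) = ((col y : Fin n) : ℕ) then
        Cr (k := ℂ) (M := ℂ) N x' (An (k := ℂ) (M := ℂ) N y' z) else 0) = 0 := by
  have h2' : row x = row y := Fin.ext h2
  have h3 : q (col x) = q (col y) := by rw [← F.pq, ← F.pq, h2']
  have hB := hz ⟨(0, Matrix.single (col x) (col y) 1), fun _ _ _ => rfl, fun i k h => by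
      show Matrix.single (col x) (col y) (1 : ℂ) i k = 0
      rw [Matrix.single_apply, if_neg]
      rintro ⟨rfl, rfl⟩
      exact h h3⟩ ⟨fun _ _ _ => rfl, fun i k h => by
      show Matrix.single (col x) (col y) (1 : ℂ) i k = 0
      rw [Matrix.single_apply, if_neg]
      rintro ⟨rfl, rfl⟩
      exact absurd h (not_le.2 h1)⟩
  rw [dG_apply] at hB
  refine Eq.trans (sum_congr rfl fun a _ => sum_congr rfl fun b _ => ?_) hB
  show _ = ((if col a = col b then (0 : ℂ) else 0) +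
      (if row a = row b then Matrix.single (col x) (col y) (1 : ℂ) (col a) (col b) else 0)) •
        Cr (k := ℂ) (M := ℂ) N a (An (k := ℂ) (M := ℂ) N b z)
  rw [ite_self, zero_add, Matrix.single_apply]
  by_cases hc : ((row a : Fin m) : ℕ) = ((row b : Fin m) : ℕ) ∧
      ((col a : Fin n) : ℕ) = ((col x : Fin n) : ℕ) ∧
      ((col b : Fin n) : ℕ) = ((col y : Fin n) : ℕ)
  · rw [if_pos hc, if_pos (Fin.ext hc.1), if_pos ⟨(Fin.ext hc.2.1).symm, (Fin.ext hc.2.2).symm⟩,
      one_smul]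
  · rw [if_neg hc]
    have e : (if row a = row b then (if col x = col a ∧ col y = col b then (1 : ℂ) else 0) else 0) =
        0 := by
      by_cases h4 : row a = row b
      · rw [if_pos h4, if_neg]
        rintro ⟨h5, h6⟩
        exact hc ⟨by rw [h4], by rw [h5], by rw [h6]⟩
      · rw [if_neg h4]
    rw [e, zero_smul]

/-- the aligned moves kill a highest weight vector -/
theorem aligned (F : Fills p q row col) {z : KT ℂ N}
    (hz : ∀ B ∈ (sys F).upp, dG ℂ ℂ ((sys F).φ B) z = 0) :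
    (∀ x y : Fin N, row x < row y → col x = col y →
      Cr (k := ℂ) (M := ℂ) N x (An (k := ℂ) (M := ℂ) N y z) = 0) ∧
    (∀ x y : Fin N, col x < col y → row x = row y →
      Cr (k := ℂ) (M := ℂ) N x (An (k := ℂ) (M := ℂ) N y z) = 0) := by
  have h := kernel (fun x => ((row x : Fin m) : ℕ)) (fun x => ((col x : Fin n) : ℕ)) z
    (fun x y h1 h2 => F.inj x y (Fin.ext h1) (Fin.ext h2))
    (fun x y h1 h2 => hR_of F hz x y h1 h2) (fun x y h1 h2 => hC_of F hz x y h1 h2)
  exact ⟨fun x y h1 h2 => h.1 x y h1 (by rw [h2]), fun x y h1 h2 => h.2 x y h1 (by rw [h2])⟩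

/-- the coefficient at a set which is not closed vanishes -/
theorem ip_move {z : KT ℂ N} {l : List ℕ} {x y : Fin N} (hx : (x : ℕ) ∉ l) (hy : (y : ℕ) ∈ l)
    (hz : Cr (k := ℂ) (M := ℂ) N x (An (k := ℂ) (M := ℂ) N y z) = 0) :
    ip N (vL ℂ N l (1 : ℂ)) z = 0 := by
  set v := vL ℂ N l (1 : ℂ) with hv
  have e1 : Cr (k := ℂ) (M := ℂ) N y (An (k := ℂ) (M := ℂ) N y v) = v := by
    have h1 := An_Cr_self (k := ℂ) N y y.2 v
    rw [hv, Cr_vL N y 1 l hy, map_zero, ← hv] at h1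
    exact (sub_eq_zero.1 h1.symm).symm
  set u := An (k := ℂ) (M := ℂ) N y v with hu
  have e2 : An (k := ℂ) (M := ℂ) N x u = 0 := by
    rw [hu, An_An, hv, An_vL N x 1 l hx, map_zero, neg_zero]
  have e3 : An (k := ℂ) (M := ℂ) N x (Cr (k := ℂ) (M := ℂ) N x u) = u := by
    rw [An_Cr_self (k := ℂ) N x x.2 u, e2, map_zero, sub_zero]
  rw [← e1, ip_Cr, ← e3, ip_An, hz, ip_zero_right]

/-- the set of the elements of a list -/
def sl (N : ℕ) (l : List ℕ) : Finset (Fin N) := univ.filter fun j => (j : ℕ) ∈ l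

theorem mem_sl {l : List ℕ} {j : Fin N} : j ∈ sl N l ↔ (j : ℕ) ∈ l := by
  unfold sl
  rw [mem_filter]
  exact ⟨fun h => h.2, fun h => ⟨mem_univ _, h⟩⟩

theorem perm_sl {l : List ℕ} (hl : l.Nodup) (hl' : ∀ j ∈ l, j < N) : l.Perm (lst (sl N l)) := by
  rw [List.perm_ext_iff_of_nodup hl (nodup_lst _)]
  intro j
  constructor
  · intro h
    exact (mem_lst (sl N l) ⟨j, hl' j h⟩).2 (mem_sl.2 h)
  · intro h
    exact mem_sl.1 ((mem_lst (sl N l) ⟨j, lt_lst _ _ h⟩).1 h)

/-- **The Young diagrams generate the exterior powers.** -/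
theorem choose_le_sum (F : Fills p q row col) (k : ℕ) :
    N.choose k ≤ ∑ J : {J : Finset (Fin N) // IsYg row col J ∧ J.card = k},
      Module.finrank ℂ (Lam (sys F) (lst J.1)) := by
  by_contra hlt
  rw [not_le] at hlt
  let ι : Type := {J : Finset (Fin N) // IsYg row col J ∧ J.card = k}
  let G : Submodule ℂ (KT ℂ N) := (koszul zop N).G (k : ℤ)
  have hG : Module.finrank ℂ G = N.choose k := finrank_GC N k
  have hLG : ∀ J : ι, Lam (sys F) (lst J.1) ≤ G := fun J => by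
    have := Lam_G (sys F) (lst J.1)
    rwa [length_lst, J.2.2] at this
  let Fm : (∀ J : ι, Lam (sys F) (lst J.1)) →ₗ[ℂ] KT ℂ N :=
    ∑ J : ι, (Lam (sys F) (lst J.1)).subtype ∘ₗ (LinearMap.proj J)
  have hFm : ∀ x, Fm x = ∑ J : ι, (x J : KT ℂ N) := by
    intro x
    simp only [Fm, LinearMap.sum_apply, LinearMap.comp_apply, LinearMap.proj_apply,
      Submodule.subtype_apply]
  let W : Submodule ℂ (KT ℂ N) := LinearMap.range Fm
  have hWfin : Module.finrank ℂ W < Module.finrank ℂ G := by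
    have h1 := LinearMap.finrank_range_le Fm
    rw [Module.finrank_pi_fintype] at h1
    rw [hG]
    exact lt_of_le_of_lt h1 hlt
  have hLW : ∀ J : ι, Lam (sys F) (lst J.1) ≤ W := fun J w hw => by
    refine ⟨Pi.single J ⟨w, hw⟩, ?_⟩
    rw [hFm, sum_eq_single J]
    · rw [Pi.single_eq_same]
    · intro J' _ hJ
      rw [Pi.single_eq_of_ne hJ]
      rfl
    · intro h
      exact absurd (mem_univ _) h
  have hWst : ∀ A, ∀ w ∈ W, dG ℂ ℂ ((sys F).φ A) w ∈ W := by
    rintro A _ ⟨x, rfl⟩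
    rw [hFm, map_sum]
    exact Submodule.sum_mem _ fun J _ => hLW J (Lam_stable (wt_yg F J.2.1) A (x J).2)
  let b := Module.finBasis ℂ W
  let Φ : G →ₗ[ℂ] (Fin (Module.finrank ℂ W) → ℂ) :=
    { toFun := fun y i => ip N ((b i : W) : KT ℂ N) (y : KT ℂ N)
      map_add' := fun y y' => by
        funext i
        exact ip_add_right N _ _ _
      map_smul' := fun c y => by
        funext i
        exact ip_smul_right c N _ _ }
  obtain ⟨y0, hy0, hy0ne⟩ := Submodule.exists_mem_ne_zero_of_ne_bot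
    (LinearMap.ker_ne_bot_of_finrank_lt (f := Φ) (by rwa [Module.finrank_fin_fun]))
  let K : Submodule ℂ (KT ℂ N) :=
    { carrier := {y | y ∈ G ∧ ∀ w ∈ W, ip N w y = 0}
      add_mem' := fun {x y} hx hy => ⟨Submodule.add_mem _ hx.1 hy.1, fun w hw => by
        rw [ip_add_right, hx.2 w hw, hy.2 w hw, add_zero]⟩
      zero_mem' := ⟨Submodule.zero_mem _, fun w _ => ip_zero_right _ _⟩
      smul_mem' := fun c x hx => ⟨Submodule.smul_mem _ c hx.1, fun w hw => by
        rw [ip_smul_right, hx.2 w hw, mul_zero]⟩ }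
  have hKne : K ≠ ⊥ := by
    refine (Submodule.ne_bot_iff _).2 ⟨(y0 : KT ℂ N), ⟨y0.2, fun w hw => ?_⟩,
      fun h => hy0ne (Subtype.ext h)⟩
    have h1 := b.sum_repr ⟨w, hw⟩
    have h2 : ∑ i, (b.repr ⟨w, hw⟩ i) • ((b i : W) : KT ℂ N) = w := by
      have := congrArg Subtype.val h1
      rw [AddSubmonoidClass.coe_finsetSum] at this
      exact this
    rw [← h2, ip_sum_left]
    refine sum_eq_zero fun i _ => ?_
    have h3 : ip N ((b i : W) : KT ℂ N) (y0 : KT ℂ N) = 0 := congrFun (LinearMap.mem_ker.1 hy0) i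
    rw [ip_smul_left, h3, mul_zero]
  have hKst : ∀ A, ∀ x ∈ K, dG ℂ ℂ ((sys F).φ A) x ∈ K := by
    intro A x hx
    refine ⟨dG_G zop _ _ x hx.1, fun w hw => ?_⟩
    have h1 : (sys F).φ A = ((sys F).φ ((sys F).st A)).conjTranspose := by
      rw [← (sys F).φ_st, (sys F).st_st]
    rw [h1, ← ip_dG]
    exact hx.2 _ (hWst _ w hw)
  have hyg : IsYg row col (∅ : Finset (Fin N)) :=
    ⟨fun x y _ _ h => absurd h (notMem_empty _), fun x y _ _ h => absurd h (notMem_empty _)⟩
  obtain ⟨z, hzK, hz0, hz⟩ := exists_hw (wt_yg F hyg) K hKne hKst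
  have hal := aligned F hz
  refine hz0 (total N z fun l hl hl' => ?_)
  by_cases hY : IsYg row col (sl N l)
  · by_cases hk : (sl N l).card = k
    · have h1 : ip N (vL ℂ N (lst (sl N l)) (1 : ℂ)) z = 0 :=
        hzK.2 _ (hLW ⟨sl N l, hY, hk⟩ (vL_Lam _ _))
      rcases vL_perm N (1 : ℂ) (perm_sl hl hl') with h2 | h2
      · rw [h2, h1]
      · rw [h2, ip_neg_left, h1, neg_zero]
    · have h1 : l.length = (sl N l).card := by
        rw [(perm_sl hl hl').length_eq, length_lst]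
      refine ip_G (e := (l.length : ℤ)) (e' := (k : ℤ)) ?_ (vL_G zop N 1 l) hzK.1
      rw [h1]
      exact_mod_cast hk
  · unfold IsYg at hY
    rw [not_and_or] at hY
    rcases hY with hY | hY
    · push Not at hY
      obtain ⟨x, y, h1, h2, h3, h4⟩ := hY
      exact ip_move (x := x) (y := y) (fun h => h4 (mem_sl.2 h)) (mem_sl.1 h3) (hal.1 x y h2 h1)
    · push Not at hY
      obtain ⟨x, y, h1, h2, h3, h4⟩ := hY
      exact ip_move (x := x) (y := y) (fun h => h4 (mem_sl.2 h)) (mem_sl.1 h3) (hal.2 x y h2 h1)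

end young

end

end Pool.Agent.E8helper6.BH
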