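import Pool.Agent.E8helper6.BH.Mat

set_option autoImplicit false

/-!
# The weights of the Young diagrams
-/

namespace Pool.Agent.E8helper6.BH

open Pool.Agent.W650 Pool.Agent.E8helper33.BE Finset

noncomputable section

/-- the list of the elements of a set -/
def lst {N : ℕ} (J : Finset (Fin N)) : List ℕ := J.toList.map Fin.val

theorem mem_lst {N : ℕ} (J : Finset (Fin N)) (j : Fin N) : (j : ℕ) ∈ lst J ↔ j ∈ J := by
  unfold lst
  rw [List.mem_map]
  constructor
  · rintro ⟨i, hi, hij⟩
    rw [← Fin.ext hij]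
    exact Finset.mem_toList.1 hi
  · intro h
    exact ⟨j, Finset.mem_toList.2 h, rfl⟩

theorem nodup_lst {N : ℕ} (J : Finset (Fin N)) : (lst J).Nodup :=
  (Finset.nodup_toList J).map Fin.val_injective

theorem lt_lst {N : ℕ} (J : Finset (Fin N)) (j : ℕ) (hj : j ∈ lst J) : j < N := by
  unfold lst at hj
  rw [List.mem_map] at hj
  obtain ⟨i, -, rfl⟩ := hj
  exact i.2

theorem length_lst {N : ℕ} (J : Finset (Fin N)) : (lst J).length = J.card := by
  unfold lst
  rw [List.length_map, Finset.length_toList]

/-- the sets which are closed under steps up and to the left -/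
def IsYg {m n N : ℕ} (row : Fin N → Fin m) (col : Fin N → Fin n) (J : Finset (Fin N)) : Prop :=
  (∀ x y, col x = col y → row x < row y → y ∈ J → x ∈ J) ∧
    ∀ x y, row x = row y → col x < col y → y ∈ J → x ∈ J

section

open Classical

variable {m n N : ℕ} {β : Type} {p : Fin m → β} {q : Fin n → β}
variable {row : Fin N → Fin m} {col : Fin N → Fin n}

/-- the columns of the elements of `J` in a row -/
def CC (row : Fin N → Fin m) (col : Fin N → Fin n) (J : Finset (Fin N)) (i : Fin m) :
    Finset (Fin n) := (J.filter fun y => row y = i).image col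

/-- the columns of the same block to the left -/
def RK (q : Fin n → β) (j : Fin n) : Finset (Fin n) := univ.filter fun j' => q j' = q j ∧ j' < j

theorem mem_CC {J : Finset (Fin N)} {i : Fin m} {j : Fin n} :
    j ∈ CC row col J i ↔ ∃ y ∈ J, row y = i ∧ col y = j := by
  unfold CC
  rw [mem_image]
  constructor
  · rintro ⟨y, hy, rfl⟩
    rw [mem_filter] at hy
    exact ⟨y, hy.1, hy.2, rfl⟩
  · rintro ⟨y, hy, h1, h2⟩
    exact ⟨y, mem_filter.2 ⟨hy, h1⟩, h2⟩

theorem CC_pos (F : Fills p q row col) {J : Finset (Fin N)} (hJ : IsYg row col J) {x : Fin N}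
    (hx : x ∈ J) : (RK q (col x)).card + 1 ≤ (CC row col J (row x)).card := by
  have h1 : insert (col x) (RK q (col x)) ⊆ CC row col J (row x) := by
    intro j hj
    rw [mem_insert] at hj
    rcases hj with rfl | hj
    · exact mem_CC.2 ⟨x, hx, rfl, rfl⟩
    · unfold RK at hj
      rw [mem_filter] at hj
      obtain ⟨y, hy1, hy2⟩ := (F.mem (row x) j).1 (by rw [F.pq x, hj.2.1])
      exact mem_CC.2 ⟨y, hJ.2 y x hy1 (by rw [hy2]; exact hj.2.2) hx, hy1, hy2⟩
  have h2 : col x ∉ RK q (col x) := by
    unfold RK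
    rw [mem_filter]
    rintro ⟨-, -, h⟩
    exact lt_irrefl _ h
  have h3 := card_le_card h1
  rwa [card_insert_of_notMem h2] at h3

theorem CC_neg (F : Fills p q row col) {J : Finset (Fin N)} (hJ : IsYg row col J) {x : Fin N}
    (hx : x ∉ J) : (CC row col J (row x)).card ≤ (RK q (col x)).card := by
  refine card_le_card fun j hj => ?_
  obtain ⟨y, hy, hy1, hy2⟩ := mem_CC.1 hj
  unfold RK
  rw [mem_filter]
  refine ⟨mem_univ _, ?_, ?_⟩
  · rw [← hy2, ← F.pq y, hy1, F.pq x]
  · by_contra hc
    rcases lt_or_eq_of_le (not_lt.1 hc) with h | h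
    · exact hx (hJ.2 x y hy1.symm (by rw [hy2]; exact h) hy)
    · exact hx (by rw [F.inj x y hy1.symm (by rw [hy2]; exact h)]; exact hy)

theorem CC_anti (F : Fills p q row col) {J : Finset (Fin N)} (hJ : IsYg row col J) {i k : Fin m}
    (hik : i < k) (hp : p i = p k) : (CC row col J k).card ≤ (CC row col J i).card := by
  refine card_le_card fun j hj => ?_
  obtain ⟨y, hy, hy1, hy2⟩ := mem_CC.1 hj
  obtain ⟨x, hx1, hx2⟩ := (F.mem i j).1 (by rw [hp, ← hy1, F.pq y, hy2])
  exact mem_CC.2 ⟨x, hJ.1 x y (by rw [hx2, hy2]) (by rw [hx1, hy1]; exact hik) hy, hx1, hx2⟩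

theorem RK_lt {j l : Fin n} (hjl : j < l) (hq : q j = q l) : (RK q j).card < (RK q l).card := by
  refine card_lt_card ((Finset.ssubset_iff_of_subset fun i hi => ?_).2 ⟨j, ?_, ?_⟩)
  · unfold RK at *
    rw [mem_filter] at *
    exact ⟨mem_univ _, by rw [hi.2.1, hq], hi.2.2.trans hjl⟩
  · unfold RK
    rw [mem_filter]
    exact ⟨mem_univ _, hq, hjl⟩
  · unfold RK
    rw [mem_filter]
    rintro ⟨-, -, h⟩
    exact lt_irrefl _ h

/-- the weights of the rows -/
def wr (row : Fin N → Fin m) (col : Fin N → Fin n) (J : Finset (Fin N)) (i : Fin m) : ℝ :=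
  ((CC row col J i).card : ℝ) - ((i : ℕ) : ℝ) / (2 * ((m : ℝ) + 1))

/-- the weights of the columns -/
def wc (q : Fin n → β) (j : Fin n) : ℝ := -((RK q j).card : ℝ) - 1 / 2

theorem wr_lt (F : Fills p q row col) {J : Finset (Fin N)} (hJ : IsYg row col J) {i k : Fin m}
    (hik : i < k) (hp : p i = p k) : 0 < wr row col J i - wr row col J k := by
  have h1 : ((CC row col J k).card : ℝ) ≤ ((CC row col J i).card : ℝ) := by
    exact_mod_cast CC_anti F hJ hik hp
  have h2 : ((i : ℕ) : ℝ) < ((k : ℕ) : ℝ) := by exact_mod_cast hik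
  have h3 : (0 : ℝ) < 2 * ((m : ℝ) + 1) := by positivity
  have h4 := div_lt_div_of_pos_right h2 h3
  unfold wr
  linarith

theorem wc_lt {j l : Fin n} (hjl : j < l) (hq : q j = q l) : 0 < wc q j - wc q l := by
  have h1 : ((RK q j).card : ℝ) < ((RK q l).card : ℝ) := by exact_mod_cast RK_lt hjl hq
  unfold wc
  linarith

/-- the diagonal element -/
def hh (p : Fin m → β) (q : Fin n → β) (α : Fin m → ℝ) (γ : Fin n → ℝ) : glBlocks p q :=
  ⟨(dm α, dm γ), fun i k h => by
    show Matrix.diagonal _ i k = 0
    exact Matrix.diagonal_apply_ne _ fun h' => h (by rw [h']), fun i k h => by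
    show Matrix.diagonal _ i k = 0
    exact Matrix.diagonal_apply_ne _ fun h' => h (by rw [h'])⟩

/-- the part of an element where the difference of the weights is `d` -/
def cutd (α : Fin m → ℝ) (γ : Fin n → ℝ) (d : ℝ) (B : glBlocks p q) : glBlocks p q :=
  cut (fun i k => α i - α k = d) (fun j l => γ j - γ l = d) B

theorem cutd_sum (α : Fin m → ℝ) (γ : Fin n → ℝ) (B : glBlocks p q) (D : Finset ℝ)
    (h1 : ∀ i k, B.1.1 i k ≠ 0 → α i - α k ∈ D) (h2 : ∀ j l, B.1.2 j l ≠ 0 → γ j - γ l ∈ D) :
    ∑ d ∈ D, cutd α γ d B = B := by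
  refine Subtype.ext ?_
  rw [AddSubmonoidClass.coe_finsetSum]
  refine Prod.ext ?_ ?_
  · rw [Prod.fst_sum]
    ext i k
    rw [Matrix.sum_apply]
    show ∑ d ∈ D, (if α i - α k = d then B.1.1 i k else 0) = B.1.1 i k
    rw [sum_ite_eq]
    by_cases h : B.1.1 i k = 0
    · rw [h, ite_self]
    · rw [if_pos (h1 i k h)]
  · rw [Prod.snd_sum]
    ext i k
    rw [Matrix.sum_apply]
    show ∑ d ∈ D, (if γ i - γ k = d then B.1.2 i k else 0) = B.1.2 i k
    rw [sum_ite_eq]
    by_cases h : B.1.2 i k = 0
    · rw [h, ite_self]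
    · rw [if_pos (h2 i k h)]

theorem dm_cut {r : ℕ} (a : Fin r → ℝ) (d : ℝ) (B : Matrix (Fin r) (Fin r) ℂ) :
    dm a * part (fun i k => a i - a k = d) B - part (fun i k => a i - a k = d) B * dm a =
      (d : ℂ) • part (fun i k => a i - a k = d) B := by
  ext i k
  rw [dm_comm, Matrix.smul_apply, smul_eq_mul]
  unfold part
  split_ifs with h
  · rw [h]
  · rw [mul_zero, mul_zero]

theorem br_cutd (F : Fills p q row col) (α : Fin m → ℝ) (γ : Fin n → ℝ) (d : ℝ)
    (B : glBlocks p q) :
    (sys F).br (hh p q α γ) (cutd α γ d B) = (d : ℂ) • cutd α γ d B := by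
  refine Subtype.ext (Prod.ext ?_ ?_)
  · exact dm_cut α d B.1.1
  · exact dm_cut γ d B.1.2

/-- the weights of a Young diagram -/
theorem wt_yg (F : Fills p q row col) {J : Finset (Fin N)} (hJ : IsYg row col J) :
    Wt (sys F) (hh p q (wr row col J) (wc q)) (fun x => wr row col J (row x) + wc q (col x))
      (lst J) where
  hdia := ⟨fun i k h => Matrix.diagonal_apply_ne _ h, fun i k h => Matrix.diagonal_apply_ne _ h⟩
  φh := by
    ext x y
    show (if col x = col y then dm (wr row col J) (row x) (row y) else 0) +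
      (if row x = row y then dm (wc q) (col x) (col y) else 0) =
        dm (fun x => wr row col J (row x) + wc q (col x)) x y
    unfold dm
    by_cases h : x = y
    · subst h
      rw [if_pos rfl, if_pos rfl, Matrix.diagonal_apply_eq, Matrix.diagonal_apply_eq,
        Matrix.diagonal_apply_eq]
      push_cast
      rfl
    · rw [Matrix.diagonal_apply_ne _ h]
      by_cases h1 : col x = col y
      · have h2 : row x ≠ row y := fun h2 => h (F.inj _ _ h2 h1)
        rw [if_neg h2, Matrix.diagonal_apply_ne _ h2, ite_self, add_zero]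
      · rw [if_neg h1, Matrix.diagonal_apply_ne _ h1, ite_self, add_zero]
  nodup := nodup_lst J
  lt := lt_lst J
  pos := fun x hx => by
    have h1 : ((RK q (col x)).card : ℝ) + 1 ≤ ((CC row col J (row x)).card : ℝ) := by
      exact_mod_cast CC_pos F hJ ((mem_lst J x).1 hx)
    have h2 : (((row x : Fin m) : ℕ) : ℝ) < (m : ℝ) + 1 := by
      have := (row x).2
      have h : (((row x : Fin m) : ℕ) : ℝ) < (m : ℝ) := by exact_mod_cast this
      linarith
    have h3 : (0 : ℝ) < 2 * ((m : ℝ) + 1) := by positivity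
    have h4 : (((row x : Fin m) : ℕ) : ℝ) / (2 * ((m : ℝ) + 1)) < 1 / 2 := by
      rw [div_lt_iff₀ h3]
      linarith
    show 0 < wr row col J (row x) + wc q (col x)
    unfold wr wc
    linarith
  neg := fun x hx => by
    have h1 : ((CC row col J (row x)).card : ℝ) ≤ ((RK q (col x)).card : ℝ) := by
      exact_mod_cast CC_neg F hJ fun h => hx ((mem_lst J x).2 h)
    have h3 : (0 : ℝ) < 2 * ((m : ℝ) + 1) := by positivity
    have h4 : (0 : ℝ) ≤ (((row x : Fin m) : ℕ) : ℝ) / (2 * ((m : ℝ) + 1)) := by positivity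
    show wr row col J (row x) + wc q (col x) < 0
    unfold wr wc
    linarith
  span := fun B hB => by
    set D : Finset ℝ := (((univ : Finset (Fin m × Fin m)).image fun t =>
      wr row col J t.1 - wr row col J t.2) ∪ ((univ : Finset (Fin n × Fin n)).image fun t =>
      wc q t.1 - wc q t.2)).filter fun d => 0 < d with hD
    have e := cutd_sum (wr row col J) (wc q) B D ?_ ?_
    · rw [← e]
      refine Submodule.sum_mem _ fun d hd => Submodule.subset_span ⟨d, ?_, br_cutd F _ _ _ _⟩
      rw [hD, mem_filter] at hd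
      exact hd.2
    · intro i k h
      have h1 : i < k := by
        by_contra hc
        exact h (hB.1 i k (not_lt.1 hc))
      have h2 : p i = p k := by
        by_contra hc
        exact h (B.2.1 i k hc)
      rw [hD, mem_filter]
      exact ⟨mem_union_left _ (mem_image.2 ⟨(i, k), mem_univ _, rfl⟩), wr_lt F hJ h1 h2⟩
    · intro i k h
      have h1 : i < k := by
        by_contra hc
        exact h (hB.2 i k (not_lt.1 hc))
      have h2 : q i = q k := by
        by_contra hc
        exact h (B.2.2 i k hc)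
      rw [hD, mem_filter]
      exact ⟨mem_union_right _ (mem_image.2 ⟨(i, k), mem_univ _, rfl⟩), wc_lt h1 h2⟩
  upp := fun B hB x y hxy => by
    have hxy' : (if col x = col y then B.1.1 (row x) (row y) else 0) +
      (if row x = row y then B.1.2 (col x) (col y) else 0) ≠ 0 := hxy
    show 0 < wr row col J (row x) + wc q (col x) - (wr row col J (row y) + wc q (col y))
    by_cases h1 : col x = col y
    · by_cases h2 : row x = row y
      · rw [if_pos h1, if_pos h2, hB.1 _ _ h2.symm.le, hB.2 _ _ h1.symm.le, add_zero] at hxy'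
        exact absurd rfl hxy'
      · rw [if_pos h1, if_neg h2, add_zero] at hxy'
        have h3 : row x < row y := by
          by_contra hc
          exact hxy' (hB.1 _ _ (not_lt.1 hc))
        have h4 : p (row x) = p (row y) := by rw [F.pq, F.pq, h1]
        have := wr_lt F hJ h3 h4
        rw [h1]
        linarith
    · rw [if_neg h1, zero_add] at hxy'
      by_cases h2 : row x = row y
      · rw [if_pos h2] at hxy'
        have h3 : col x < col y := by
          by_contra hc
          exact hxy' (hB.2 _ _ (not_lt.1 hc))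
        have h4 : q (col x) = q (col y) := by rw [← F.pq, ← F.pq, h2]
        have := wc_lt h3 h4
        rw [h2]
        linarith
      · rw [if_neg h2] at hxy'
        exact absurd rfl hxy'

end

end

end Pool.Agent.E8helper6.BH
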